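import Mathlib

/-!
# Extension of morphisms from a curve to a proper scheme
-/

set_option autoImplicit false

open CategoryTheory CategoryTheory.Limits AlgebraicGeometry Topology

namespace Pool.Agent.H5.RCLift

/-- the specialisation of the local morphism of a partial map -/
theorem spec_fromSpecStalkOfMem {C Y : Scheme.{0}} [IsIntegral C] (f : C.PartialMap Y) {x : C}
    (hx : x ∈ f.domain) :
    Spec.map (C.presheaf.stalkSpecializes ((genericPoint_spec C).specializes trivial)) ≫
      f.fromSpecStalkOfMem hx = f.fromFunctionField := by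
  change _ ≫ f.domain.fromSpecStalkOfMem x hx ≫ f.hom = f.domain.fromSpecStalkOfMem _ _ ≫ f.hom
  rw [← Category.assoc]
  congr 1
  rw [← cancel_mono f.domain.ι, Category.assoc, Scheme.Opens.fromSpecStalkOfMem_ι,
    Scheme.Opens.fromSpecStalkOfMem_ι, Scheme.SpecMap_stalkSpecializes_fromSpecStalk]

/-- the domain of a rational map from a curve to a proper scheme is everything -/
theorem mem_domain {C Y S : Scheme.{0}} [IsIntegral C]
    (hC : ∀ x : C, ValuationRing (C.presheaf.stalk x)) (sC : C ⟶ S) (sY : Y ⟶ S) [IsProper sY]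
    (f : C.PartialMap Y) (hf : f.hom ≫ sY = f.domain.ι ≫ sC) (x : C) :
    x ∈ f.toRationalMap.domain := by
  have := hC x
  have hv : ValuativeCriterion sY := by
    have h1 : (@IsProper) sY := inferInstance
    rw [IsProper.eq_valuativeCriterion] at h1
    exact h1.1.1.1
  have hs : Spec.map (CommRingCat.ofHom (algebraMap (C.presheaf.stalk x) C.functionField)) ≫
      C.fromSpecStalk x = C.fromSpecStalk _ :=
    Scheme.SpecMap_stalkSpecializes_fromSpecStalk ((genericPoint_spec C).specializes trivial)
  have hsq : CommSq f.fromFunctionField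
      (Spec.map (CommRingCat.ofHom (algebraMap (C.presheaf.stalk x) C.functionField))) sY
      (C.fromSpecStalk x ≫ sC) := by
    have e1 : f.fromFunctionField ≫ sY = C.fromSpecStalk _ ≫ sC := by
      change (f.domain.fromSpecStalkOfMem _ _ ≫ f.hom) ≫ sY = _
      rw [Category.assoc, hf, ← Category.assoc, Scheme.Opens.fromSpecStalkOfMem_ι]
    exact ⟨e1.trans ((congrArg (· ≫ sC) hs).symm.trans (Category.assoc _ _ _))⟩
  have hD : IsDomain (C.presheaf.stalk x) := inferInstance
  have hFr : IsFractionRing (C.presheaf.stalk x) C.functionField := inferInstance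
  let T : ValuativeCommSq sY :=
    @ValuativeCommSq.mk _ _ sY (C.presheaf.stalk x) _ hD this C.functionField _ _ hFr
      f.fromFunctionField (C.fromSpecStalk x ≫ sC) hsq
  have hlift : T.commSq.HasLift := hv.existence T
  let ψ : Spec (C.presheaf.stalk x) ⟶ Y := T.commSq.lift
  have h2 : ψ ≫ sY = C.fromSpecStalk x ≫ sC := T.commSq.fac_right
  have h1 : Spec.map (CommRingCat.ofHom (algebraMap (C.presheaf.stalk x) C.functionField)) ≫ ψ =
      f.fromFunctionField := T.commSq.fac_left
  let g : C.PartialMap Y := Scheme.PartialMap.ofFromSpecStalk sC sY ψ h2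
  have hxg : x ∈ g.domain := Scheme.PartialMap.mem_domain_ofFromSpecStalk sC sY ψ h2
  have hg : g.fromSpecStalkOfMem hxg = ψ :=
    Scheme.PartialMap.fromSpecStalkOfMem_ofFromSpecStalk sC sY ψ h2
  refine Scheme.RationalMap.mem_domain.2 ⟨g, hxg, ?_⟩
  apply Scheme.RationalMap.eq_of_fromFunctionField_eq
  rw [Scheme.RationalMap.fromFunctionField_toRationalMap,
    Scheme.RationalMap.fromFunctionField_toRationalMap, ← spec_fromSpecStalkOfMem g hxg, hg]
  exact h1

/-- A morphism from a nonempty open subset of a curve to a proper scheme extends to the curve. -/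
theorem extend {C Y S : Scheme.{0}} [IsIntegral C]
    (hC : ∀ x : C, ValuationRing (C.presheaf.stalk x)) (sC : C ⟶ S) (sY : Y ⟶ S) [IsProper sY]
    [S.IsSeparated] (U : C.Opens) (hU : (U : Set C).Nonempty)
    (u : (U : Scheme.{0}) ⟶ Y) (hu : u ≫ sY = U.ι ≫ sC) :
    ∃ g : C ⟶ Y, g ≫ sY = sC ∧ U.ι ≫ g = u := by
  have hYsep : Y.IsSeparated := by
    rw [Scheme.isSeparated_iff]
    have h1 : terminal.from Y = sY ≫ terminal.from S := terminal.hom_ext _ _
    rw [h1]
    infer_instance
  let f : C.PartialMap Y := ⟨U, U.2.dense hU, u⟩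
  let φ := f.toRationalMap
  have hdom : φ.domain = ⊤ := by
    ext x
    exact ⟨fun _ => trivial, fun _ => mem_domain hC sC sY f hu x⟩
  let G := φ.toPartialMap
  have hG : G.domain = ⊤ := hdom
  have hUG : U ≤ G.domain := f.le_domain_toRationalMap
  have hG' : C.homOfLE hUG ≫ G.hom = u := f.toPartialMap_toRationalMap_restrict
  let j : C ⟶ (G.domain : Scheme.{0}) := C.topIso.inv ≫ C.homOfLE hG.ge
  have hj : j ≫ G.domain.ι = 𝟙 C := by
    change (C.topIso.inv ≫ C.homOfLE hG.ge) ≫ G.domain.ι = 𝟙 C
    rw [Category.assoc, Scheme.homOfLE_ι]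
    simp
  have hUj : U.ι ≫ j = C.homOfLE hUG := by
    rw [← cancel_mono G.domain.ι, Category.assoc, hj, Category.comp_id, Scheme.homOfLE_ι]
  have hUg : U.ι ≫ (j ≫ G.hom) = u := by
    rw [← Category.assoc, hUj, hG']
  refine ⟨j ≫ G.hom, ?_, hUg⟩
  have hd : IsDominant U.ι := by
    constructor
    rw [DenseRange, Scheme.Opens.range_ι]
    exact U.2.dense hU
  refine ext_of_isDominant U.ι ?_
  rw [← Category.assoc, hUg, hu]

end Pool.Agent.H5.RCLift
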