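import Mathlib

/-!
# The local rings of the projective line are valuation rings
-/

set_option autoImplicit false

open CategoryTheory CategoryTheory.Limits AlgebraicGeometry Topology

namespace Pool.Agent.H5.RCLift

attribute [local instance] MvPolynomial.gradedAlgebra

/-- the homogeneous polynomials in two variables -/
abbrev GR : ℕ → Submodule ℂ (MvPolynomial (Fin (1 + 1)) ℂ) :=
  MvPolynomial.homogeneousSubmodule (Fin (1 + 1)) ℂ

theorem X_mem (i : Fin (1 + 1)) : (MvPolynomial.X i : MvPolynomial (Fin (1 + 1)) ℂ) ∈ GR 1 :=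
  MvPolynomial.isHomogeneous_X ℂ i

theorem adjoin_X : Algebra.adjoin (GR 0)
    (Set.range (MvPolynomial.X : Fin (1 + 1) → MvPolynomial (Fin (1 + 1)) ℂ)) = ⊤ := by
  rw [eq_top_iff]
  intro p _
  induction p using MvPolynomial.induction_on with
  | C a =>
    exact Subalgebra.algebraMap_mem (R := GR 0) _
      ⟨MvPolynomial.C a, MvPolynomial.isHomogeneous_C _ a⟩
  | add p q hp hq => exact add_mem (hp trivial) (hq trivial)
  | mul_X p i hp => exact mul_mem (hp trivial) (Algebra.subset_adjoin ⟨i, rfl⟩)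

theorem exists_const (r : GR 0) : ∃ a : ℂ, algebraMap ℂ (GR 0) a = r := by
  have h1 : (r : MvPolynomial (Fin (1 + 1)) ℂ) ∈
      (MvPolynomial.homogeneousSubmodule (Fin (1 + 1)) ℂ 0) := r.2
  rw [MvPolynomial.homogeneousSubmodule_zero] at h1
  obtain ⟨a, ha⟩ := Submodule.mem_one.1 h1
  exact ⟨a, Subtype.ext ha⟩

/-- the affine pieces of the projective line are principal ideal rings -/
theorem pir_away (i j : Fin (1 + 1)) (hij : j ≠ i) (hall : ∀ k : Fin (1 + 1), k = i ∨ k = j) :
    IsPrincipalIdealRing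
      (HomogeneousLocalization.Away GR (MvPolynomial.X i : MvPolynomial (Fin (1 + 1)) ℂ)) := by
  let B := HomogeneousLocalization.Away GR (MvPolynomial.X i : MvPolynomial (Fin (1 + 1)) ℂ)
  let t : B := HomogeneousLocalization.Away.mk GR (X_mem i) 1 (MvPolynomial.X j)
    (by simpa using X_mem j)
  let c : ℂ →+* B := (algebraMap (GR 0) B).comp (algebraMap ℂ (GR 0))
  let φ : Polynomial ℂ →+* B := Polynomial.eval₂RingHom c t
  refine IsPrincipalIdealRing.of_surjective φ ?_
  intro z
  have hz : z ∈ (⊤ : Submodule (GR 0) B) := trivial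
  rw [← HomogeneousLocalization.Away.span_mk_prod_pow_eq_top (X_mem i) MvPolynomial.X adjoin_X
    (fun _ => 1) X_mem] at hz
  induction hz using Submodule.span_induction with
  | mem z hz =>
    obtain ⟨a, ai, hai, rfl⟩ := hz
    refine ⟨Polynomial.X ^ ai j, ?_⟩
    rw [map_pow]
    have h1 : φ Polynomial.X = t := Polynomial.eval₂_X _ _
    rw [h1]
    apply HomogeneousLocalization.val_injective
    rw [HomogeneousLocalization.val_pow]
    have h2 : ai i + ai j = a := by
      have h3 : ∑ k, ai k = a := by simpa using hai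
      rw [← h3, Finset.sum_eq_add_of_mem (f := ai) i j (Finset.mem_univ _) (Finset.mem_univ _) hij.symm]
      intro k _ hk
      rcases hall k with h | h
      · exact absurd h hk.1
      · exact absurd h hk.2
    have h4 : (∏ k, (MvPolynomial.X k : MvPolynomial (Fin (1 + 1)) ℂ) ^ ai k) =
        MvPolynomial.X i ^ ai i * MvPolynomial.X j ^ ai j := by
      rw [Finset.prod_eq_mul_of_mem i j (Finset.mem_univ _) (Finset.mem_univ _) hij.symm]
      intro k _ hk
      rcases hall k with h | h
      · exact absurd h hk.1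
      · exact absurd h hk.2
    rw [HomogeneousLocalization.Away.val_mk, HomogeneousLocalization.Away.val_mk,
      Localization.mk_pow, Localization.mk_eq_mk_iff, Localization.r_iff_exists]
    refine ⟨1, ?_⟩
    simp only [h4, OneMemClass.coe_one, one_mul, SubmonoidClass.coe_pow]
    rw [← h2]
    ring
  | zero => exact ⟨0, map_zero φ⟩
  | add x y _ _ hx hy =>
    obtain ⟨p, hp⟩ := hx
    obtain ⟨q, hq⟩ := hy
    exact ⟨p + q, by rw [map_add, hp, hq]⟩
  | smul r x _ hx =>
    obtain ⟨p, hp⟩ := hx
    obtain ⟨a, ha⟩ := exists_const r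
    refine ⟨Polynomial.C a * p, ?_⟩
    rw [map_mul, hp, Algebra.smul_def]
    congr 1
    have h1 : φ (Polynomial.C a) = c a := Polynomial.eval₂_C _ _
    rw [h1, ← ha]
    rfl

theorem domain_away (i : Fin (1 + 1)) : IsDomain
    (HomogeneousLocalization.Away GR (MvPolynomial.X i : MvPolynomial (Fin (1 + 1)) ℂ)) := by
  have h1 : Submonoid.powers (MvPolynomial.X i : MvPolynomial (Fin (1 + 1)) ℂ) ≤
      nonZeroDivisors _ := powers_le_nonZeroDivisors_of_noZeroDivisors (MvPolynomial.X_ne_zero i)
  have h2 : IsDomain (Localization (Submonoid.powers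
      (MvPolynomial.X i : MvPolynomial (Fin (1 + 1)) ℂ))) := IsLocalization.isDomain_localization h1
  exact Function.Injective.isDomain (algebraMap
    (HomogeneousLocalization.Away GR (MvPolynomial.X i : MvPolynomial (Fin (1 + 1)) ℂ))
    (Localization (Submonoid.powers (MvPolynomial.X i : MvPolynomial (Fin (1 + 1)) ℂ))))
    (HomogeneousLocalization.val_injective _)

theorem pir_localization {R S : Type*} [CommRing R] [IsPrincipalIdealRing R] (M : Submonoid R)
    [CommRing S] [Algebra R S] [IsLocalization M S] : IsPrincipalIdealRing S := by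
  constructor
  intro I
  rw [← IsLocalization.map_under M S I]
  exact Submodule.IsPrincipal.map_ringHom _ (IsPrincipalIdealRing.principal _)

/-- every point of the projective line has an affine neighbourhood which is the spectrum of a
principal ideal domain -/
theorem exists_chart (x : (Proj GR : Scheme.{0})) :
    ∃ (R : CommRingCat.{0}) (ι : Spec R ⟶ (Proj GR : Scheme.{0})) (y : Spec R),
      IsOpenImmersion ι ∧ IsDomain R ∧ IsPrincipalIdealRing R ∧ ι y = x := by
  have h0 := Proj.iSup_basicOpen_eq_top' GR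
    (MvPolynomial.X : Fin (1 + 1) → MvPolynomial (Fin (1 + 1)) ℂ) (fun i => ⟨1, X_mem i⟩) adjoin_X
  have hx : x ∈ (⊤ : (Proj GR : Scheme.{0}).Opens) := trivial
  rw [← h0, TopologicalSpace.Opens.mem_iSup] at hx
  obtain ⟨i, hi⟩ := hx
  rw [← Proj.opensRange_awayι GR _ (X_mem i) one_pos] at hi
  obtain ⟨y, hy⟩ := hi
  have hp : IsPrincipalIdealRing
      (HomogeneousLocalization.Away GR (MvPolynomial.X i : MvPolynomial (Fin (1 + 1)) ℂ)) := by
    fin_cases i
    · exact pir_away 0 1 (by decide) (by decide)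
    · exact pir_away 1 0 (by decide) (by decide)
  exact ⟨CommRingCat.of _, Proj.awayι GR _ (X_mem i) one_pos, y, inferInstance, domain_away i, hp, hy⟩

/-- stalks -/
theorem exists_stalk_equiv (x : (Proj GR : Scheme.{0})) :
    ∃ (T : Type) (_ : CommRing T) (_ : IsDomain T) (_ : IsPrincipalIdealRing T),
      Nonempty ((Proj GR : Scheme.{0}).presheaf.stalk x ≃+* T) := by
  obtain ⟨R, ι, y, h1, h2, h3, rfl⟩ := exists_chart x
  let z : PrimeSpectrum R := y
  have h4 : IsPrincipalIdealRing (Localization.AtPrime z.asIdeal) :=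
    pir_localization z.asIdeal.primeCompl
  refine ⟨Localization.AtPrime z.asIdeal, inferInstance, inferInstance, h4, ⟨?_⟩⟩
  exact (asIso (ι.stalkMap y) ≪≫ Spec.stalkIso R z).commRingCatIsoToRingEquiv

theorem mem_bot {f : MvPolynomial (Fin (1 + 1)) ℂ} (h : f ∈ (⊥ : HomogeneousIdeal GR)) :
    f = 0 := by
  have h1 : f ∈ (⊥ : HomogeneousIdeal GR).toIdeal := h
  rw [HomogeneousIdeal.toIdeal_bot] at h1
  exact h1

theorem integral_P1 : IsIntegral (Proj GR : Scheme.{0}) := by
  have h1 : ∀ x : (Proj GR : Scheme.{0}),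
      _root_.IsReduced ((Proj GR : Scheme.{0}).presheaf.stalk x) := by
    intro x
    obtain ⟨T, _, _, _, ⟨e⟩⟩ := exists_stalk_equiv x
    exact isReduced_of_injective e e.injective
  have h2 : IsReduced (Proj GR : Scheme.{0}) := isReduced_of_isReduced_stalk _
  let η : ProjectiveSpectrum GR := ⟨⊥, by
    change (⊥ : HomogeneousIdeal GR).toIdeal.IsPrime
    rw [HomogeneousIdeal.toIdeal_bot]
    exact Ideal.isPrime_bot, by
    intro h
    have h3 : (MvPolynomial.X 0 : MvPolynomial (Fin (1 + 1)) ℂ) ∈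
        HomogeneousIdeal.irrelevant GR := by
      rw [HomogeneousIdeal.mem_irrelevant_iff, GradedRing.proj_apply,
        DirectSum.decompose_of_mem_ne GR (X_mem 0) one_ne_zero]
    have h4 : (MvPolynomial.X 0 : MvPolynomial (Fin (1 + 1)) ℂ) = 0 := mem_bot (h h3)
    exact MvPolynomial.X_ne_zero 0 h4⟩
  have h5 : ∀ U : Set (Proj GR : Scheme.{0}), IsOpen U → U.Nonempty →
      (η : (Proj GR : Scheme.{0})) ∈ U := by
    intro U hU hne
    obtain ⟨x, hx⟩ := hne
    obtain ⟨_, ⟨f, rfl⟩, hxf, hf⟩ :=
      (ProjectiveSpectrum.isTopologicalBasis_basic_opens GR).exists_subset_of_mem_open hx hU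
    refine hf ?_
    have h6 : f ≠ 0 := by
      rintro rfl
      exact hxf (zero_mem _)
    intro h7
    exact h6 (mem_bot h7)
  have h8 : IrreducibleSpace (Proj GR : Scheme.{0}) :=
    { toNonempty := ⟨η⟩
      isPreirreducible_univ := by
        intro U V hU hV ⟨x, _, hx⟩ ⟨y, _, hy⟩
        exact ⟨η, trivial, h5 U hU ⟨x, hx⟩, h5 V hV ⟨y, hy⟩⟩ }
  exact isIntegral_of_irreducibleSpace_of_isReduced _

theorem valuation_P1 [IsIntegral (Proj GR : Scheme.{0})] (x : (Proj GR : Scheme.{0})) :
    ValuationRing ((Proj GR : Scheme.{0}).presheaf.stalk x) := by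
  obtain ⟨T, _, _, h3, ⟨e⟩⟩ := exists_stalk_equiv x
  rw [ValuationRing.iff_local_bezout_domain]
  refine ⟨inferInstance, ?_⟩
  exact Function.Surjective.isBezout e.symm.toRingHom e.symm.surjective

end Pool.Agent.H5.RCLift
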