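import Pool.Agent.H5.RCImage
import Pool.Agent.H5.RCExtend
import Pool.Agent.H5.RCP1

/-!
# Rational connectedness of the source of a birational morphism
-/

set_option autoImplicit false

open CategoryTheory CategoryTheory.Limits AlgebraicGeometry Topology

namespace Pool.Agent.H5.RCLift

open Pool.Agent.H11.IC Pool.Agent.H5.RCImage

attribute [local instance] MvPolynomial.gradedAlgebra

theorem adjoin_X' (n : ℕ) : Algebra.adjoin (MvPolynomial.homogeneousSubmodule (Fin (n + 1)) ℂ 0)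
    (Set.range (MvPolynomial.X : Fin (n + 1) → MvPolynomial (Fin (n + 1)) ℂ)) = ⊤ := by
  rw [eq_top_iff]
  intro p _
  induction p using MvPolynomial.induction_on with
  | C a =>
    exact Subalgebra.algebraMap_mem (R := MvPolynomial.homogeneousSubmodule (Fin (n + 1)) ℂ 0) _
      ⟨MvPolynomial.C a, MvPolynomial.isHomogeneous_C _ a⟩
  | add p q hp hq => exact add_mem (hp trivial) (hq trivial)
  | mul_X p i hp => exact mul_mem (hp trivial) (Algebra.subset_adjoin ⟨i, rfl⟩)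

/-- projective space is proper -/
theorem proper_PP (n : ℕ) : IsProper (PP n).hom := by
  have h1 : Algebra.FiniteType (MvPolynomial.homogeneousSubmodule (Fin (n + 1)) ℂ 0)
      (MvPolynomial (Fin (n + 1)) ℂ) := by
    constructor
    rw [Subalgebra.fg_def]
    exact ⟨_, Set.finite_range _, adjoin_X' n⟩
  have h2 : Function.Bijective
      (algebraMap ℂ (MvPolynomial.homogeneousSubmodule (Fin (n + 1)) ℂ 0)) := by
    constructor
    · exact fun a b h => MvPolynomial.C_injective _ _ (congrArg Subtype.val h)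
    · rintro ⟨r, hr⟩
      have h1 : r ∈ (MvPolynomial.homogeneousSubmodule (Fin (n + 1)) ℂ 0) := hr
      rw [MvPolynomial.homogeneousSubmodule_zero] at h1
      obtain ⟨a, ha⟩ := Submodule.mem_one.1 h1
      exact ⟨a, Subtype.ext ha⟩
  have h3 : IsIso (CommRingCat.ofHom
      (algebraMap ℂ (MvPolynomial.homogeneousSubmodule (Fin (n + 1)) ℂ 0))) :=
    (ConcreteCategory.isIso_iff_bijective _).2 h2
  change IsProper (Proj.toSpecZero (MvPolynomial.homogeneousSubmodule (Fin (n + 1)) ℂ) ≫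
    Spec.map (CommRingCat.ofHom
      (algebraMap ℂ (MvPolynomial.homogeneousSubmodule (Fin (n + 1)) ℂ 0))))
  infer_instance

/-- projective varieties are proper -/
theorem proper_var {X : CSch} (hX : IsVar X) : IsProper X.hom := by
  obtain ⟨n, i, hi⟩ := hX.projective
  have := proper_PP n
  rw [← Over.w i]
  infer_instance

/-- complex points in an open subset factor through it -/
theorem exists_factor {X : CSch} (U : X.left.Opens) (x : Pt X) (hx : x.pt ∈ U) :
    ∃ a : Spec (CommRingCat.of ℂ) ⟶ (U : Scheme.{0}), a ≫ U.ι = x.1 := by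
  have h1 : Set.range x.1 ⊆ Set.range U.ι := by
    rw [Scheme.Opens.range_ι]
    rintro _ ⟨z, rfl⟩
    rw [Subsingleton.elim z (IsLocalRing.closedPoint ℂ)]
    exact hx
  exact ⟨IsOpenImmersion.lift U.ι x.1 h1, IsOpenImmersion.lift_fac _ _ _⟩

/-- points over the open set where a birational morphism is an isomorphism -/
theorem point_unique {X' X : CSch} (p : X' ⟶ X) (W : X.left.Opens) [IsIso (p.left ∣_ W)]
    (a b : Spec (CommRingCat.of ℂ) ⟶ ((p.left ⁻¹ᵁ W : X'.left.Opens) : Scheme.{0}))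
    (h : (a ≫ (p.left ⁻¹ᵁ W).ι) ≫ p.left = (b ≫ (p.left ⁻¹ᵁ W).ι) ≫ p.left) : a = b := by
  rw [Category.assoc, Category.assoc, ← morphismRestrict_ι, ← Category.assoc, ← Category.assoc,
    cancel_mono, cancel_mono] at h
  exact h

theorem point_exists {X' X : CSch} (p : X' ⟶ X) (W : X.left.Opens) [IsIso (p.left ∣_ W)]
    (x : Pt X) (hx : x.pt ∈ W) : ∃ x' : Pt X', mapPt p x' = x := by
  obtain ⟨a, ha⟩ := exists_factor W x hx
  have h1 : (a ≫ inv (p.left ∣_ W) ≫ (p.left ⁻¹ᵁ W).ι) ≫ p.left = x.1 := by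
    rw [Category.assoc, Category.assoc, ← morphismRestrict_ι, IsIso.inv_hom_id_assoc, ha]
  refine ⟨⟨a ≫ inv (p.left ∣_ W) ≫ (p.left ⁻¹ᵁ W).ι, ?_⟩, Subtype.ext h1⟩
  rw [← Over.w p, ← Category.assoc, h1]
  exact x.2

/-- lifting of rational curves -/
theorem lift_curve {X' X : CSch} (p : X' ⟶ X) (hX' : IsVar X') (W : X.left.Opens)
    [IsIso (p.left ∣_ W)] (g : PP 1 ⟶ X) (s0 : Pt (PP 1)) (hs0 : (mapPt g s0).pt ∈ W) :
    ∃ g' : PP 1 ⟶ X', ∀ (s : Pt (PP 1)) (x' : Pt X'), mapPt g s = mapPt p x' →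
      (mapPt g s).pt ∈ W → mapPt g' s = x' := by
  have := proper_var hX'
  have h1 : IsIntegral (PP 1).left := integral_P1
  have h2 : ∀ x : (PP 1).left, ValuationRing ((PP 1).left.presheaf.stalk x) :=
    fun x => @valuation_P1 h1 x
  let U : (PP 1).left.Opens := g.left ⁻¹ᵁ W
  have hpt : ∀ s : Pt (PP 1), (mapPt g s).pt ∈ W → s.pt ∈ U := by
    intro s hs
    have h3 : (mapPt g s).pt = g.left s.pt := Scheme.Hom.comp_apply s.1 g.left _
    rw [h3] at hs
    exact hs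
  let u : (U : Scheme.{0}) ⟶ X'.left := (g.left ∣_ W) ≫ inv (p.left ∣_ W) ≫ (p.left ⁻¹ᵁ W).ι
  have hup : u ≫ p.left = U.ι ≫ g.left := by
    change ((g.left ∣_ W) ≫ inv (p.left ∣_ W) ≫ (p.left ⁻¹ᵁ W).ι) ≫ p.left = _
    rw [Category.assoc, Category.assoc, ← morphismRestrict_ι, IsIso.inv_hom_id_assoc,
      morphismRestrict_ι]
  have hu : u ≫ X'.hom = U.ι ≫ (PP 1).hom := by
    rw [← Over.w p, ← Category.assoc, hup, Category.assoc, Over.w g]
  obtain ⟨g', h3, h4⟩ := extend h2 (PP 1).hom X'.hom U ⟨_, hpt s0 hs0⟩ u hu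
  refine ⟨Over.homMk g' h3, fun s x' hs hW => Subtype.ext ?_⟩
  obtain ⟨a, ha⟩ := exists_factor U s (hpt s hW)
  have hx' : x'.pt ∈ p.left ⁻¹ᵁ W := by
    rw [hs] at hW
    have h5 : (mapPt p x').pt = p.left x'.pt := Scheme.Hom.comp_apply x'.1 p.left _
    rw [h5] at hW
    exact hW
  obtain ⟨b, hb⟩ := exists_factor (p.left ⁻¹ᵁ W) x' hx'
  change s.1 ≫ g' = x'.1
  have h6 : s.1 ≫ g' = (a ≫ (g.left ∣_ W) ≫ inv (p.left ∣_ W)) ≫ (p.left ⁻¹ᵁ W).ι := by
    rw [← ha, Category.assoc, h4]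
    change a ≫ (g.left ∣_ W) ≫ inv (p.left ∣_ W) ≫ (p.left ⁻¹ᵁ W).ι = _
    simp only [Category.assoc]
  have h7 : (a ≫ (g.left ∣_ W) ≫ inv (p.left ∣_ W)) = b := by
    apply point_unique p W
    rw [← h6, ← ha, Category.assoc, Category.assoc, ← Category.assoc U.ι, h4, hup, hb,
      ← Category.assoc, ha]
    exact congrArg Subtype.val hs
  rw [h6, h7, hb]

/-- RATIONAL CONNECTEDNESS OF THE SOURCE OF A BIRATIONAL MORPHISM -/
theorem rc_lift {X' X : CSch} (p : X' ⟶ X) (hX' : IsVar X') (hX : IsVar X) (hp : Birat p)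
    (hR : IsRC X) : IsRC X' := by
  have := hX.integral
  have := hX.smooth
  obtain ⟨W, hWne, hW⟩ := hp
  obtain ⟨R, hRne, hR⟩ := hR
  have iX : IrreducibleSpace (pullback X.hom X.hom : Scheme.{0}) := irreducible_prod X.hom X.hom
  let W1 : (pullback X.hom X.hom : Scheme.{0}).Opens := (pullback.fst X.hom X.hom) ⁻¹ᵁ W
  let W2 : (pullback X.hom X.hom : Scheme.{0}).Opens := (pullback.snd X.hom X.hom) ⁻¹ᵁ W
  obtain ⟨w0, hw0⟩ := hWne
  have n1 : (W1 : Set (pullback X.hom X.hom : Scheme.{0})).Nonempty := by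
    obtain ⟨z, hz⟩ := (pullback.fst X.hom X.hom).surjective w0
    exact ⟨z, show _ ∈ (W : Set X.left) from hz ▸ hw0⟩
  have n2 : (W2 : Set (pullback X.hom X.hom : Scheme.{0})).Nonempty := by
    obtain ⟨z, hz⟩ := (pullback.snd X.hom X.hom).surjective w0
    exact ⟨z, show _ ∈ (W : Set X.left) from hz ▸ hw0⟩
  have n3 := nonempty_preirreducible_inter W1.2 W2.2 n1 n2
  have n4 := nonempty_preirreducible_inter R.2 (W1.2.inter W2.2) hRne n3
  have hpair1 : ∀ x y : Pt X, pairPt x y ∈ W1 → x.pt ∈ W := by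
    intro x y h
    have h1 : pullback.fst X.hom X.hom (pairPt x y) = x.pt := by
      refine (Scheme.Hom.comp_apply _ _ _).symm.trans ?_
      rw [pullback.lift_fst]
      rfl
    rw [← h1]
    exact h
  have hpair2 : ∀ x y : Pt X, pairPt x y ∈ W2 → y.pt ∈ W := by
    intro x y h
    have h1 : pullback.snd X.hom X.hom (pairPt x y) = y.pt := by
      refine (Scheme.Hom.comp_apply _ _ _).symm.trans ?_
      rw [pullback.lift_snd]
      rfl
    rw [← h1]
    exact h
  refine ⟨(sq p) ⁻¹ᵁ (R ⊓ (W1 ⊓ W2)), ?_, fun x' y' hxy => ?_⟩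
  · have hft : LocallyOfFiniteType (pullback.fst X.hom X.hom ≫ X.hom) := inferInstance
    obtain ⟨z, hz, hzV⟩ := exists_point_mem (pullback.fst X.hom X.hom ≫ X.hom) _
      (R.2.inter (W1.2.inter W2.2)) n4
    obtain ⟨x, y, hxy⟩ := exists_pair z hz
    have hzp : pairPt x y = z (IsLocalRing.closedPoint ℂ) := by rw [hxy]; rfl
    rw [← hzp] at hzV
    obtain ⟨x', hx'⟩ := point_exists p W x (hpair1 x y hzV.2.1)
    obtain ⟨y', hy'⟩ := point_exists p W y (hpair2 x y hzV.2.2)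
    refine ⟨pairPt x' y', ?_⟩
    change sq p (pairPt x' y') ∈ R ⊓ (W1 ⊓ W2)
    rw [sq_pair, hx', hy']
    exact hzV
  · have h1 : sq p (pairPt x' y') ∈ R ⊓ (W1 ⊓ W2) := hxy
    rw [sq_pair] at h1
    obtain ⟨g, s, t, hs, ht⟩ := hR _ _ h1.1
    have hx : (mapPt p x').pt ∈ W := hpair1 _ _ h1.2.1
    have hy : (mapPt p y').pt ∈ W := hpair2 _ _ h1.2.2
    obtain ⟨g', hg'⟩ := lift_curve p hX' W g s (by rw [hs]; exact hx)
    exact ⟨g', s, t, hg' s x' hs (by rw [hs]; exact hx), hg' t y' ht (by rw [ht]; exact hy)⟩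

end Pool.Agent.H5.RCLift
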