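import Mathlib

/-!
# The local rings of dimension at most one of a smooth complex variety are valuation rings
-/

set_option autoImplicit false

open CategoryTheory CategoryTheory.Limits AlgebraicGeometry Topology

namespace Pool.Agent.H5.InvDef

/-- an étale algebra over a factorial ring has principal maximal ideals in codimension one -/
theorem valuation_of_etale {A S : Type*} [CommRing A] [CommRing S] [IsDomain A] [IsDomain S]
    [UniqueFactorizationMonoid A] [IsNoetherianRing A] [Algebra A S] [Algebra.Etale A S]
    (q : Ideal S) [q.IsPrime] (hq : q.height ≤ 1) : ValuationRing (Localization.AtPrime q) := by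
  have hS : IsNoetherianRing S := Algebra.FiniteType.isNoetherianRing A S
  let p : Ideal A := q.under A
  have hfl : Module.Flat A S := inferInstance
  have hp : p.height ≤ 1 := by
    have h1 := Ideal.height_eq_height_add_of_liesOver_of_hasGoingDown p q
    rw [h1] at hq
    exact le_trans le_self_add hq
  have hpp : p.IsPrincipal := by
    rcases eq_or_ne p ⊥ with h | h
    · rw [h]
      exact bot_isPrincipal
    · refine UniqueFactorizationMonoid.isPrincipal_of_height_eq_one (le_antisymm hp ?_)
      rw [Order.one_le_iff_ne_zero]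
      intro h0
      exact h (Ideal.height_eq_zero_iff_eq_bot.1 h0)
  let _ := Localization.AtPrime.algebraOfLiesOver p q
  have h1 : p.map (algebraMap A (Localization.AtPrime q)) =
      IsLocalRing.maximalIdeal (Localization.AtPrime q) :=
    ((Algebra.isUnramifiedAt_iff_map_eq A p q).1 inferInstance).2
  have h2 : (IsLocalRing.maximalIdeal (Localization.AtPrime q)).IsPrincipal := by
    rw [← h1]
    exact Submodule.IsPrincipal.map_ringHom _ hpp
  exact ((tfae_of_isNoetherianRing_of_isLocalRing_of_isDomain (Localization.AtPrime q)).out 4 1).1 h2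

theorem valuation_of_equiv {A B : Type*} [CommRing A] [CommRing B] [IsDomain A] [IsDomain B]
    (e : A ≃+* B) (h : ValuationRing A) : ValuationRing B := by
  rw [ValuationRing.iff_local_bezout_domain] at h ⊢
  obtain ⟨h1, h2⟩ := h
  exact ⟨e.isLocalRing, Function.Surjective.isBezout e.toRingHom e.surjective⟩

/-- the stalks of Krull dimension at most one of a smooth integral complex scheme -/
theorem valuation_stalk {X : Scheme.{0}} [IsIntegral X] (f : X ⟶ Spec (CommRingCat.of ℂ))
    [Smooth f] (x : X) (hx : ¬ (2 ≤ ringKrullDim (X.presheaf.stalk x))) :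
    ValuationRing (X.presheaf.stalk x) := by
  obtain ⟨U, hU, V, hV, hxV, e, hs⟩ := Smooth.exists_isStandardSmooth f x
  obtain ⟨n, g, hg, het⟩ := hs.exists_etale_mvPolynomial
  have hUtop : U = ⊤ := by
    ext z
    refine ⟨fun _ => trivial, fun _ => ?_⟩
    rw [Subsingleton.elim z (f x)]
    exact e hxV
  subst hUtop
  let ε : Γ(Spec (CommRingCat.of ℂ), ⊤) ≃+* ℂ :=
    (Scheme.ΓSpecIso (CommRingCat.of ℂ)).commRingCatIsoToRingEquiv
  have r1 : IsDomain Γ(Spec (CommRingCat.of ℂ), ⊤) := MulEquiv.isDomain ℂ ε.toMulEquiv
  have r2 : UniqueFactorizationMonoid Γ(Spec (CommRingCat.of ℂ), ⊤) :=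
    MulEquiv.uniqueFactorizationMonoid ε.symm.toMulEquiv inferInstance
  have r3 : IsNoetherianRing Γ(Spec (CommRingCat.of ℂ), ⊤) :=
    isNoetherianRing_of_ringEquiv ℂ ε.symm
  have hne : Nonempty V := ⟨⟨x, hxV⟩⟩
  have s1 : IsDomain Γ(X, V) := inferInstance
  algebraize [g]
  let y : V := ⟨x, hxV⟩
  let q : Ideal Γ(X, V) := (hV.primeIdealOf y).asIdeal
  let _ : Algebra Γ(X, V) (X.presheaf.stalk x) := X.presheaf.algebra_section_stalk y
  have hloc : IsLocalization.AtPrime (X.presheaf.stalk x) q := hV.isLocalization_stalk y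
  have hh : ringKrullDim (X.presheaf.stalk x) = q.height :=
    IsLocalization.AtPrime.ringKrullDim_eq_height q (X.presheaf.stalk x)
  have hq : q.height ≤ 1 := by
    have h1 : ¬ (((2 : ℕ∞) : WithBot ℕ∞) ≤ (q.height : WithBot ℕ∞)) := by
      rw [← hh]
      exact hx
    have h2 : ¬ (2 ≤ q.height) := fun h => h1 (WithBot.coe_le_coe.2 h)
    rw [not_le] at h2
    exact Order.le_of_lt_add_one (by simpa [one_add_one_eq_two] using h2)
  have hval : ValuationRing (Localization.AtPrime q) :=
    valuation_of_etale (A := MvPolynomial (Fin n) Γ(Spec (CommRingCat.of ℂ), ⊤)) q hq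
  exact valuation_of_equiv
    (IsLocalization.algEquiv q.primeCompl (Localization.AtPrime q)
      (X.presheaf.stalk x)).toRingEquiv hval

end Pool.Agent.H5.InvDef
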