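import Pool.Agent.H5.RCLift
import Pool.Agent.H5.ValStalk

/-!
# The inverse of a birational morphism is defined outside codimension two
-/

set_option autoImplicit false

open CategoryTheory CategoryTheory.Limits AlgebraicGeometry Topology

namespace Pool.Agent.H5.InvDef

open Pool.Agent.H11.IC Pool.Agent.H5.RCLift

/-- a rational map to a proper scheme is defined at the points whose local ring is a valuation
ring -/
theorem mem_domain_at {C Y S : Scheme.{0}} [IsIntegral C] (sC : C ⟶ S) (sY : Y ⟶ S) [IsProper sY]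
    (f : C.PartialMap Y) (hf : f.hom ≫ sY = f.domain.ι ≫ sC) (x : C)
    (this : ValuationRing (C.presheaf.stalk x)) : x ∈ f.toRationalMap.domain := by
  have hv : ValuativeCriterion sY := by
    have h1 : (@IsProper) sY := inferInstance
    rw [IsProper.eq_valuativeCriterion] at h1
    exact h1.1.1.1
  have hs : Spec.map (CommRingCat.ofHom (algebraMap (C.presheaf.stalk x) C.functionField)) ≫
      C.fromSpecStalk x = C.fromSpecStalk _ :=
    Scheme.SpecMap_stalkSpecializes_fromSpecStalk ((genericPoint_spec C).specializes trivial)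
  have hsq : CommSq f.fromFunctionField
      (Spec.map (CommRingCat.ofHom (algebraMap (C.presheaf.stalk x) C.functionField))) sY
      (C.fromSpecStalk x ≫ sC) := by
    have e1 : f.fromFunctionField ≫ sY = C.fromSpecStalk _ ≫ sC := by
      change (f.domain.fromSpecStalkOfMem _ _ ≫ f.hom) ≫ sY = _
      rw [Category.assoc, hf, ← Category.assoc, Scheme.Opens.fromSpecStalkOfMem_ι]
    exact ⟨e1.trans ((congrArg (· ≫ sC) hs).symm.trans (Category.assoc _ _ _))⟩
  have hD : IsDomain (C.presheaf.stalk x) := inferInstance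
  have hFr : IsFractionRing (C.presheaf.stalk x) C.functionField := inferInstance
  let T : ValuativeCommSq sY :=
    @ValuativeCommSq.mk _ _ sY (C.presheaf.stalk x) _ hD this C.functionField _ _ hFr
      f.fromFunctionField (C.fromSpecStalk x ≫ sC) hsq
  have hlift : T.commSq.HasLift := hv.existence T
  let ψ : Spec (C.presheaf.stalk x) ⟶ Y := T.commSq.lift
  have h2 : ψ ≫ sY = C.fromSpecStalk x ≫ sC := T.commSq.fac_right
  have h1 : Spec.map (CommRingCat.ofHom (algebraMap (C.presheaf.stalk x) C.functionField)) ≫ ψ =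
      f.fromFunctionField := T.commSq.fac_left
  let g : C.PartialMap Y := Scheme.PartialMap.ofFromSpecStalk sC sY ψ h2
  have hxg : x ∈ g.domain := Scheme.PartialMap.mem_domain_ofFromSpecStalk sC sY ψ h2
  have hg : g.fromSpecStalkOfMem hxg = ψ :=
    Scheme.PartialMap.fromSpecStalkOfMem_ofFromSpecStalk sC sY ψ h2
  refine Scheme.RationalMap.mem_domain.2 ⟨g, hxg, ?_⟩
  apply Scheme.RationalMap.eq_of_fromFunctionField_eq
  rw [Scheme.RationalMap.fromFunctionField_toRationalMap,
    Scheme.RationalMap.fromFunctionField_toRationalMap, ← spec_fromSpecStalkOfMem g hxg, hg]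
  exact h1

/-- THE INVERSE OF A BIRATIONAL MORPHISM IS DEFINED OUTSIDE CODIMENSION TWO -/
theorem inverse_defined {X' X : CSch} (p : X' ⟶ X) (hX' : IsVar X') (hX : IsVar X)
    (hp : Birat p) : ∃ (U : X.left.Opens) (s : opn X U ⟶ X'),
      (∀ x ∈ (U : Set X.left)ᶜ, 2 ≤ ringKrullDim (X.left.presheaf.stalk x)) ∧
        s ≫ p = opnι X U := by
  have := hX.integral
  have := hX.smooth
  have := proper_var hX'
  have := proper_var hX
  obtain ⟨W, hWne, hW⟩ := hp
  have hsep : ∀ {Y : CSch}, IsProper Y.hom → Y.left.IsSeparated := by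
    intro Y hY
    rw [Scheme.isSeparated_iff]
    have h1 : terminal.from Y.left = Y.hom ≫ terminal.from _ := terminal.hom_ext _ _
    rw [h1]
    infer_instance
  have := hsep (proper_var hX')
  have := hsep (proper_var hX)
  let u : (W : Scheme.{0}) ⟶ X'.left := inv (p.left ∣_ W) ≫ (p.left ⁻¹ᵁ W).ι
  have hup : u ≫ p.left = W.ι := by
    change (inv (p.left ∣_ W) ≫ (p.left ⁻¹ᵁ W).ι) ≫ p.left = _
    rw [Category.assoc, ← morphismRestrict_ι, IsIso.inv_hom_id_assoc]
  have hu : u ≫ X'.hom = W.ι ≫ X.hom := by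
    rw [← Over.w p, ← Category.assoc, hup]
  let f : X.left.PartialMap X'.left := ⟨W, W.2.dense hWne, u⟩
  let φ := f.toRationalMap
  let G := φ.toPartialMap
  have hWG : W ≤ G.domain := f.le_domain_toRationalMap
  have hG : X.left.homOfLE hWG ≫ G.hom = u := f.toPartialMap_toRationalMap_restrict
  have hGp : G.hom ≫ p.left = G.domain.ι := by
    have hd : IsDominant (X.left.homOfLE hWG) := by
      constructor
      have h1 : DenseRange (X.left.homOfLE hWG) := by
        rw [DenseRange, dense_iff_inter_open]
        intro A hA hAne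
        have hA' : IsOpen (G.domain.ι '' A) := G.domain.ι.isOpenEmbedding.isOpenMap A hA
        obtain ⟨z, hz1, hz2⟩ := nonempty_preirreducible_inter W.2 hA' hWne (hAne.image _)
        obtain ⟨a, ha, haz⟩ := hz2
        refine ⟨a, ha, ⟨z, hz1⟩, ?_⟩
        apply G.domain.ι.isOpenEmbedding.injective
        rw [haz]
        exact (Scheme.Hom.comp_apply _ _ _).symm.trans
          (congrArg (fun k => k (⟨z, hz1⟩ : (W : Scheme.{0}))) (X.left.homOfLE_ι hWG))
      exact h1
    refine ext_of_isDominant (X.left.homOfLE hWG) ?_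
    rw [← Category.assoc, hG, hup, Scheme.homOfLE_ι]
  have hGX : G.hom ≫ X'.hom = G.domain.ι ≫ X.hom := by
    rw [← Over.w p, ← Category.assoc, hGp]
  refine ⟨G.domain, Over.homMk G.hom hGX, fun x hx => ?_, ?_⟩
  · by_contra h
    exact hx (mem_domain_at X.hom X'.hom f hu x (valuation_stalk X.hom x h))
  · ext1
    exact hGp

end Pool.Agent.H5.InvDef
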