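import Mathlib

/-! Basic notions of (linear) dynamics: hypercyclic and chaotic maps. -/

namespace Pool.Agent.H5.LinDyn

/-- `T` is hypercyclic: some `f` has a dense orbit `{T^n f : n ≥ 0}`. -/
def IsHypercyclic {E : Type*} [TopologicalSpace E] (T : E → E) : Prop :=
  ∃ f : E, Dense (Set.range fun n : ℕ => T^[n] f)

/-- `T` is chaotic: it is hypercyclic and its periodic points (`T^N f = f` for some `N ≥ 1`)
are dense. -/
def IsChaotic {E : Type*} [TopologicalSpace E] (T : E → E) : Prop :=
  IsHypercyclic T ∧ Dense {f : E | ∃ N : ℕ, 1 ≤ N ∧ T^[N] f = f}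

end Pool.Agent.H5.LinDyn
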