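import Mathlib
import Pool.Agent.H11.IC.Defs

/-!
# Images of rationally connected varieties are rationally connected
-/

set_option autoImplicit false

open CategoryTheory CategoryTheory.Limits AlgebraicGeometry Topology

namespace Pool.Agent.H5.RCImage

open Pool.Agent.H11.IC

/-- nonempty open sets contain complex points -/
theorem exists_point_mem {S : Scheme.{0}} (h : S ⟶ Spec (CommRingCat.of ℂ))
    [LocallyOfFiniteType h] (U : Set S) (hU : IsOpen U) (hne : U.Nonempty) :
    ∃ x : Spec (CommRingCat.of ℂ) ⟶ S, x ≫ h = 𝟙 _ ∧ x (IsLocalRing.closedPoint ℂ) ∈ U := by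
  have hj : JacobsonSpace S := LocallyOfFiniteType.jacobsonSpace h
  have h1 := JacobsonSpace.closure_inter_closedPoints_eq_closure (S := U) hU.isLocallyClosed
  have h2 : (U ∩ closedPoints S).Nonempty := by
    rw [Set.nonempty_iff_ne_empty]
    intro h3
    rw [h3, closure_empty] at h1
    obtain ⟨x, hx⟩ := hne
    have := subset_closure hx
    rw [← h1] at this
    exact this
  obtain ⟨x, hx, hx'⟩ := h2
  have hx'' : IsClosed {x} := hx'
  refine ⟨pointOfClosedPoint h x hx'', pointOfClosedPoint_comp h x hx'', ?_⟩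
  have h5 : (pointOfClosedPoint h x hx'') (IsLocalRing.closedPoint ℂ) = x :=
    pointOfClosedPoint_apply h x hx'' _
  exact (congrArg (· ∈ U) h5).mpr hx

/-- the product of two irreducible smooth schemes over the complex numbers is irreducible -/
theorem irreducible_prod {X Y : Scheme.{0}} (f : X ⟶ Spec (CommRingCat.of ℂ))
    (g : Y ⟶ Spec (CommRingCat.of ℂ)) [Smooth f] [Smooth g] [IrreducibleSpace X]
    [IrreducibleSpace Y] : IrreducibleSpace (pullback f g : Scheme.{0}) := by
  have hopen : IsOpenMap (pullback.fst f g) := (pullback.fst f g).isOpenMap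
  have hfib : ∀ x : Spec (CommRingCat.of ℂ) ⟶ X, x ≫ f = 𝟙 _ →
      IsIrreducible ((pullback.fst f g) ⁻¹' {x (IsLocalRing.closedPoint ℂ)}) := by
    intro x hx
    have h1 : Set.range x = {x (IsLocalRing.closedPoint ℂ)} := by
      rw [Set.range_eq_singleton_iff]
      exact fun y => congrArg x (Subsingleton.elim _ _)
    have h2 : IrreducibleSpace (pullback x (pullback.fst f g) : Scheme.{0}) := by
      have e1 := pullbackRightPullbackFstIso f g x
      have h3 : IsIso (x ≫ f) := by
        rw [hx]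
        infer_instance
      have e2 : (pullback (x ≫ f) g : Scheme.{0}) ≅ Y := asIso (pullback.snd _ _)
      rw [(e1 ≪≫ e2).hom.homeomorph.irreducibleSpace_iff]
      infer_instance
    rw [← h1, ← Scheme.Pullback.range_snd x (pullback.fst f g), ← Set.image_univ]
    exact (IrreducibleSpace.isIrreducible_univ _).image _
      (pullback.snd x (pullback.fst f g)).continuous.continuousOn
  have hne : Nonempty (pullback f g : Scheme.{0}) := by
    obtain ⟨x, hx, -⟩ := exists_point_mem f Set.univ isOpen_univ Set.univ_nonempty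
    obtain ⟨z, -⟩ := (hfib x hx).1
    exact ⟨z⟩
  have hpre : IsPreirreducible ((pullback.fst f g) ⁻¹' (Set.univ : Set X)) := by
    refine IsPreirreducible.preimage_of_dense_isPreirreducible_fiber
      (PreirreducibleSpace.isPreirreducible_univ) _ hopen ?_
    intro y _
    rw [mem_closure_iff]
    intro o ho hy
    obtain ⟨x, hx, hxo⟩ := exists_point_mem f o ho ⟨y, hy⟩
    exact ⟨_, hxo, trivial, (hfib x hx).2⟩
  rw [Set.preimage_univ] at hpre
  exact { isPreirreducible_univ := hpre, toNonempty := hne }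

/-- a constructible set in an irreducible space contains a nonempty open set or its complement
does -/
theorem constructible_or {S : Type*} [TopologicalSpace S] [IrreducibleSpace S] {s : Set S}
    (hs : IsConstructible s) :
    (∃ V : Set S, IsOpen V ∧ V.Nonempty ∧ V ⊆ s) ∨ (∃ V : Set S, IsOpen V ∧ V.Nonempty ∧ V ⊆ sᶜ) := by
  induction hs using IsConstructible.empty_union_induction with
  | open_retrocompact U hU _ =>
    rcases U.eq_empty_or_nonempty with h | h
    · right
      exact ⟨Set.univ, isOpen_univ, Set.univ_nonempty, by rw [h, Set.compl_empty]⟩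
    · left
      exact ⟨U, hU, h, subset_rfl⟩
  | union s _ t _ h1 h2 =>
    rcases h1 with ⟨V, hV, hn, hs⟩ | ⟨V, hV, hn, hs⟩
    · exact Or.inl ⟨V, hV, hn, hs.trans Set.subset_union_left⟩
    rcases h2 with ⟨W, hW, hn', hs'⟩ | ⟨W, hW, hn', hs'⟩
    · exact Or.inl ⟨W, hW, hn', hs'.trans Set.subset_union_right⟩
    · refine Or.inr ⟨V ∩ W, hV.inter hW, nonempty_preirreducible_inter hV hW hn hn', ?_⟩
      rw [Set.compl_union]
      exact Set.inter_subset_inter hs hs'
  | compl s _ h =>
    rw [compl_compl]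
    exact h.symm

/-- a dense constructible set in an irreducible space contains a nonempty open set -/
theorem exists_open_subset {S : Type*} [TopologicalSpace S] [IrreducibleSpace S] {s : Set S}
    (hs : IsConstructible s) (hd : Dense s) : ∃ V : Set S, IsOpen V ∧ V.Nonempty ∧ V ⊆ s := by
  rcases constructible_or hs with h | ⟨V, hV, hn, h⟩
  · exact h
  · obtain ⟨x, hx, hxs⟩ := hd.inter_open_nonempty V hV hn
    exact absurd hxs (h hx)

theorem exists_affine {T : Scheme.{0}} {U : Set T} (hU : IsOpen U) {x : T} (hx : x ∈ U) :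
    ∃ W : T.Opens, IsAffineOpen W ∧ x ∈ W ∧ (W : Set T) ⊆ U := by
  obtain ⟨W, ⟨W', hWa, rfl⟩, hW0, hWU⟩ := T.isBasis_affineOpens.exists_subset_of_mem_open hx hU
  exact ⟨W', hWa, hW0, hWU⟩

/-- The image of a nonempty open set under a dominant morphism which is locally of finite
presentation contains a nonempty open set. -/
theorem exists_open_image {S T : Scheme.{0}} [IrreducibleSpace S] [IrreducibleSpace T] (F : S ⟶ T)
    [LocallyOfFinitePresentation F]
    (hdom : ∀ V : Set T, IsOpen V → V.Nonempty → (F ⁻¹' V).Nonempty) (U : Set S) (hU : IsOpen U)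
    (hne : U.Nonempty) : ∃ V : Set T, IsOpen V ∧ V.Nonempty ∧ V ⊆ F '' U := by
  obtain ⟨t0⟩ := (inferInstance : Nonempty T)
  obtain ⟨W, hWa, hW0, -⟩ := exists_affine isOpen_univ (show t0 ∈ (Set.univ : Set T) from trivial)
  have hWne : (W : Set T).Nonempty := ⟨t0, hW0⟩
  obtain ⟨s0, hs0⟩ := nonempty_preirreducible_inter hU (W.2.preimage F.continuous) hne
    (hdom W W.2 hWne)
  obtain ⟨O, hOa, hO0, hOU⟩ := exists_affine (hU.inter (W.2.preimage F.continuous)) hs0
  have hOne : (O : Set S).Nonempty := ⟨s0, hO0⟩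
  have hOW : O ≤ F ⁻¹ᵁ W := fun z hz => (hOU hz).2
  let φ : (O : Scheme.{0}) ⟶ (W : Scheme.{0}) := F.resLE W O hOW
  have h1 : IsAffine (O : Scheme.{0}) := hOa
  have h2 : IsAffine (W : Scheme.{0}) := hWa
  have h3 : LocallyOfFinitePresentation φ := inferInstance
  have h4 : IsConstructible (Set.range φ) := by
    rw [← Set.image_univ]
    exact φ.isConstructible_image IsConstructible.univ
  have h5 : IrreducibleSpace (W : Scheme.{0}) := by
    have : Nonempty (W : Scheme.{0}) := ⟨⟨t0, hW0⟩⟩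
    exact W.ι.isOpenEmbedding.irreducibleSpace
  have h6 : Dense (Set.range φ) := by
    rw [dense_iff_inter_open]
    intro A hA hAne
    have hA' : IsOpen (W.ι '' A) := W.ι.isOpenEmbedding.isOpenMap A hA
    obtain ⟨z, hz1, hz2⟩ := nonempty_preirreducible_inter O.2 (hA'.preimage F.continuous) hOne
      (hdom _ hA' (hAne.image _))
    obtain ⟨a, ha, haz⟩ := hz2
    refine ⟨a, ha, ⟨z, hz1⟩, ?_⟩
    apply W.ι.isOpenEmbedding.injective
    rw [haz]
    exact (Scheme.Hom.comp_apply _ _ _).symm.trans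
      (congrArg (fun k => k (⟨z, hz1⟩ : (O : Scheme.{0}))) (F.resLE_comp_ι hOW))
  obtain ⟨V, hV, hVne, hVs⟩ := exists_open_subset h4 h6
  refine ⟨W.ι '' V, W.ι.isOpenEmbedding.isOpenMap V hV, hVne.image _, ?_⟩
  rintro _ ⟨v, hv, rfl⟩
  obtain ⟨z, rfl⟩ := hVs hv
  refine ⟨O.ι z, hOU.trans Set.inter_subset_left z.2, ?_⟩
  exact (Scheme.Hom.comp_apply _ _ _).symm.trans
    ((congrArg (fun k => k z) (F.resLE_comp_ι hOW)).symm.trans (Scheme.Hom.comp_apply _ _ _))

/-- the morphism `f × f` -/
noncomputable def sq {X Y : CSch} (f : X ⟶ Y) :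
    (pullback X.hom X.hom : Scheme.{0}) ⟶ (pullback Y.hom Y.hom : Scheme.{0}) :=
  pullback.map X.hom X.hom Y.hom Y.hom f.left f.left (𝟙 _) (by rw [Category.comp_id, Over.w f])
    (by rw [Category.comp_id, Over.w f])

theorem sq_fst {X Y : CSch} (f : X ⟶ Y) :
    sq f ≫ pullback.fst Y.hom Y.hom = pullback.fst X.hom X.hom ≫ f.left := by
  unfold sq
  rw [pullback.map, pullback.lift_fst]

theorem sq_snd {X Y : CSch} (f : X ⟶ Y) :
    sq f ≫ pullback.snd Y.hom Y.hom = pullback.snd X.hom X.hom ≫ f.left := by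
  unfold sq
  rw [pullback.map, pullback.lift_snd]

theorem sq_hom {X Y : CSch} (f : X ⟶ Y) :
    sq f ≫ (pullback.fst Y.hom Y.hom ≫ Y.hom) = pullback.fst X.hom X.hom ≫ X.hom := by
  rw [← Category.assoc, sq_fst, Category.assoc, Over.w f]

theorem sq_pair {X Y : CSch} (f : X ⟶ Y) (x y : Pt X) :
    sq f (pairPt x y) = pairPt (mapPt f x) (mapPt f y) := by
  have h : (pullback.lift x.1 y.1 (x.2.trans y.2.symm)) ≫ sq f =
      pullback.lift (mapPt f x).1 (mapPt f y).1 ((mapPt f x).2.trans (mapPt f y).2.symm) := by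
    apply pullback.hom_ext
    · rw [Category.assoc, sq_fst, pullback.lift_fst, ← Category.assoc, pullback.lift_fst]
      rfl
    · rw [Category.assoc, sq_snd, pullback.lift_snd, ← Category.assoc, pullback.lift_snd]
      rfl
  exact (Scheme.Hom.comp_apply _ _ _).symm.trans (congrArg (fun k => k (IsLocalRing.closedPoint ℂ)) h)

/-- morphisms between schemes of finite type over the complex numbers -/
theorem lfp_of_comp {S T : Scheme.{0}} (F : S ⟶ T) (h : T ⟶ Spec (CommRingCat.of ℂ))
    [LocallyOfFiniteType h] [LocallyOfFiniteType (F ≫ h)] : LocallyOfFinitePresentation F := by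
  have h1 : IsLocallyNoetherian T := LocallyOfFiniteType.isLocallyNoetherian h
  rw [LocallyOfFinitePresentation.iff_locallyOfFiniteType]
  exact locallyOfFiniteType_of_comp F h

/-- points of the product are pairs -/
theorem exists_pair {X : CSch} (z : Spec (CommRingCat.of ℂ) ⟶ (pullback X.hom X.hom : Scheme.{0}))
    (hz : z ≫ pullback.fst X.hom X.hom ≫ X.hom = 𝟙 _) :
    ∃ x y : Pt X, z = pullback.lift x.1 y.1 (x.2.trans y.2.symm) := by
  refine ⟨⟨z ≫ pullback.fst X.hom X.hom, ?_⟩, ⟨z ≫ pullback.snd X.hom X.hom, ?_⟩, ?_⟩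
  · rw [Category.assoc]
    exact hz
  · rw [Category.assoc, ← pullback.condition]
    exact hz
  · apply pullback.hom_ext
    · rw [pullback.lift_fst]
    · rw [pullback.lift_snd]

/-- points over the base point in the fibre -/
theorem exists_lift {X B : CSch} (f : X ⟶ B) (b : Pt B) (h : IsVar (fib f b)) :
    ∃ x : Pt X, mapPt f x = b := by
  have := h.integral
  have := h.smooth
  obtain ⟨x, hx, -⟩ := exists_point_mem (fib f b).hom Set.univ isOpen_univ Set.univ_nonempty
  refine ⟨mapPt (fibι f b) ⟨x, hx⟩, Subtype.ext ?_⟩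
  have h1 : (x ≫ pullback.fst f.left b.1) ≫ f.left = (x ≫ pullback.snd f.left b.1) ≫ b.1 :=
    (Category.assoc _ _ _).trans ((congrArg (x ≫ ·) pullback.condition).trans
      (Category.assoc _ _ _).symm)
  have h2 : (x ≫ pullback.snd f.left b.1) ≫ b.1 = b.1 :=
    (congrArg (· ≫ b.1) hx).trans (Category.id_comp _)
  exact h1.trans h2

/-- IMAGES OF RATIONALLY CONNECTED VARIETIES ARE RATIONALLY CONNECTED -/
theorem rc_image {X B : CSch} (f : X ⟶ B) (r : ℕ) (hX : IsVar X) (hB : IsVar B) (hf : GenRC f r)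
    (hR : IsRC X) : IsRC B := by
  have := hX.integral
  have := hX.smooth
  have := hB.integral
  have := hB.smooth
  have iX : IrreducibleSpace (pullback X.hom X.hom : Scheme.{0}) := irreducible_prod X.hom X.hom
  have iB : IrreducibleSpace (pullback B.hom B.hom : Scheme.{0}) := irreducible_prod B.hom B.hom
  have hlfp : LocallyOfFinitePresentation (sq f) := by
    have h1 : LocallyOfFiniteType (sq f ≫ pullback.fst B.hom B.hom ≫ B.hom) := by
      rw [← Category.assoc, sq_fst, Category.assoc, Over.w f]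
      infer_instance
    exact lfp_of_comp (sq f) (pullback.fst B.hom B.hom ≫ B.hom)
  obtain ⟨U, hUne, hU⟩ := hf
  obtain ⟨R, hRne, hR⟩ := hR
  have hdom : ∀ V : Set (pullback B.hom B.hom : Scheme.{0}), IsOpen V → V.Nonempty →
      ((sq f) ⁻¹' V).Nonempty := by
    intro V hV hVne
    obtain ⟨b0, hb0, hb0U⟩ := exists_point_mem B.hom (U : Set B.left) U.2 hUne
    have h1 : IsOpen ((pullback.fst B.hom B.hom) ⁻¹' (U : Set B.left)) :=
      U.2.preimage (pullback.fst B.hom B.hom).continuous
    have h2 : IsOpen ((pullback.snd B.hom B.hom) ⁻¹' (U : Set B.left)) :=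
      U.2.preimage (pullback.snd B.hom B.hom).continuous
    have h3 : ((pullback.fst B.hom B.hom) ⁻¹' (U : Set B.left)).Nonempty := by
      obtain ⟨z, hz⟩ := (pullback.fst B.hom B.hom).surjective (b0 (IsLocalRing.closedPoint ℂ))
      exact ⟨z, show _ ∈ (U : Set B.left) from hz ▸ hb0U⟩
    have h4 : ((pullback.snd B.hom B.hom) ⁻¹' (U : Set B.left)).Nonempty := by
      obtain ⟨z, hz⟩ := (pullback.snd B.hom B.hom).surjective (b0 (IsLocalRing.closedPoint ℂ))
      exact ⟨z, show _ ∈ (U : Set B.left) from hz ▸ hb0U⟩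
    have h5 := nonempty_preirreducible_inter h1 h2 h3 h4
    have h6 := nonempty_preirreducible_inter hV (h1.inter h2) hVne h5
    obtain ⟨z, hz, hzV⟩ := exists_point_mem (pullback.fst B.hom B.hom ≫ B.hom) _
      (hV.inter (h1.inter h2)) h6
    obtain ⟨b, b', hbb⟩ := exists_pair z hz
    have hb1 : b.pt = pullback.fst B.hom B.hom (z (IsLocalRing.closedPoint ℂ)) := by
      rw [hbb]
      refine Eq.trans ?_ (Scheme.Hom.comp_apply _ _ _)
      rw [pullback.lift_fst]
      rfl
    have hb2 : b'.pt = pullback.snd B.hom B.hom (z (IsLocalRing.closedPoint ℂ)) := by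
      rw [hbb]
      refine Eq.trans ?_ (Scheme.Hom.comp_apply _ _ _)
      rw [pullback.lift_snd]
      rfl
    obtain ⟨x, hx⟩ := exists_lift f b (hU b (hb1 ▸ hzV.2.1)).1
    obtain ⟨y, hy⟩ := exists_lift f b' (hU b' (hb2 ▸ hzV.2.2)).1
    refine ⟨pairPt x y, ?_⟩
    change sq f (pairPt x y) ∈ V
    rw [sq_pair, hx, hy]
    have : pairPt b b' = z (IsLocalRing.closedPoint ℂ) := by rw [hbb]; rfl
    rw [this]
    exact hzV.1
  obtain ⟨V, hV, hVne, hVs⟩ := exists_open_image (sq f) hdom (R : Set _) R.2 hRne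
  refine ⟨⟨V, hV⟩, hVne, fun b b' hbb => ?_⟩
  -- a complex point of `R` over `(b, b')`
  obtain ⟨w, hw, hwb⟩ := hVs hbb
  let c : Spec (CommRingCat.of ℂ) ⟶ (pullback B.hom B.hom : Scheme.{0}) :=
    pullback.lift b.1 b'.1 (b.2.trans b'.2.symm)
  have hc : c (IsLocalRing.closedPoint ℂ) = (R.ι ≫ sq f) ⟨w, hw⟩ := by
    exact hwb.symm.trans (Scheme.Hom.comp_apply R.ι (sq f) ⟨w, hw⟩).symm
  obtain ⟨q, -, -⟩ := Scheme.Pullback.exists_preimage_pullback (f := R.ι ≫ sq f) (g := c) _ _ hc.symm
  obtain ⟨z, hz, -⟩ := exists_point_mem (pullback.snd (R.ι ≫ sq f) c) Set.univ isOpen_univ ⟨q, trivial⟩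
  have hzc : (z ≫ pullback.fst (R.ι ≫ sq f) c ≫ R.ι) ≫ sq f = c := by
    rw [Category.assoc, Category.assoc, pullback.condition, ← Category.assoc, hz, Category.id_comp]
  obtain ⟨x, y, hxy⟩ := exists_pair (z ≫ pullback.fst (R.ι ≫ sq f) c ≫ R.ι) (by
    rw [← sq_hom f, ← Category.assoc _ (sq f), hzc, ← Category.assoc, pullback.lift_fst]
    exact b.2)
  have hx : mapPt f x = b := by
    apply Subtype.ext
    have h : ((z ≫ pullback.fst (R.ι ≫ sq f) c ≫ R.ι) ≫ sq f) ≫ pullback.fst B.hom B.hom =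
        c ≫ pullback.fst B.hom B.hom := congrArg (· ≫ pullback.fst B.hom B.hom) hzc
    rw [hxy, Category.assoc, sq_fst, ← Category.assoc, pullback.lift_fst, pullback.lift_fst] at h
    exact h
  have hy : mapPt f y = b' := by
    apply Subtype.ext
    have h : ((z ≫ pullback.fst (R.ι ≫ sq f) c ≫ R.ι) ≫ sq f) ≫ pullback.snd B.hom B.hom =
        c ≫ pullback.snd B.hom B.hom := congrArg (· ≫ pullback.snd B.hom B.hom) hzc
    rw [hxy, Category.assoc, sq_snd, ← Category.assoc, pullback.lift_snd, pullback.lift_snd] at h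
    exact h
  have hin : pairPt x y ∈ R := by
    have h1 : pairPt x y = R.ι ((z ≫ pullback.fst (R.ι ≫ sq f) c) (IsLocalRing.closedPoint ℂ)) := by
      refine (congrArg (fun k => k (IsLocalRing.closedPoint ℂ)) hxy).symm.trans ?_
      rw [← Category.assoc]
      exact Scheme.Hom.comp_apply _ _ _
    rw [h1]
    exact Subtype.mem _
  obtain ⟨g, s, t, hs, ht⟩ := hR x y hin
  refine ⟨g ≫ f, s, t, ?_, ?_⟩
  · exact (Subtype.ext (Category.assoc _ _ _).symm).trans ((congrArg (mapPt f) hs).trans hx)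
  · exact (Subtype.ext (Category.assoc _ _ _).symm).trans ((congrArg (mapPt f) ht).trans hy)

end Pool.Agent.H5.RCImage
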