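import Mathlib
import Pool.Agent.H5.LinDyn

namespace Pool.Agent.H5.SymmChaos

open MeasureTheory Set Filter Topology
open scoped ENNReal
open Pool.Agent.H5.LinDyn

set_option linter.unusedSectionVars false


/-! ### Abstract part: transfer of hypercyclicity / chaos along intertwining maps -/

section abstract_part

variable {E₁ E₂ : Type*} [NormedAddCommGroup E₁] [NormedSpace ℂ E₁]
  [NormedAddCommGroup E₂] [NormedSpace ℂ E₂]

theorem intertwine_iterate {T₁ : E₁ → E₁} {T₂ : E₂ → E₂} {S : E₂ → E₁}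
    (h : ∀ f, T₁ (S f) = S (T₂ f)) (n : ℕ) (f : E₂) : T₁^[n] (S f) = S (T₂^[n] f) := by
  induction n generalizing f with
  | zero => rfl
  | succ n ih => rw [Function.iterate_succ_apply, Function.iterate_succ_apply, h, ih]

/-- If the orbit of `f` is dense, then it visits open sets at arbitrarily late times. -/
theorem visit_late {T : E₂ → E₂} {f : E₂} (hf : Dense (Set.range fun n : ℕ => T^[n] f))
    {W : Set E₂} (hW : IsOpen W) (hne : W.Nonempty) (m : ℕ) : ∃ n, m ≤ n ∧ T^[n] f ∈ W := by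
  rcases subsingleton_or_nontrivial E₂ with hsub | hnt
  · obtain ⟨w, hw⟩ := hne
    exact ⟨m, le_rfl, by rwa [Subsingleton.elim (T^[m] f) w]⟩
  · have hfin : (((fun n : ℕ => T^[n] f) '' (Set.Iio m)) : Set E₂).Finite :=
      (Set.finite_Iio m).image _
    have : ∀ x : E₂, NeBot (𝓝[≠] x) := fun x => Module.punctured_nhds_neBot ℂ E₂ x
    have hd := hf.sdiff_finite hfin
    obtain ⟨y, hyW, hy1, hy2⟩ := hd.inter_open_nonempty W hW hne
    obtain ⟨n, rfl⟩ := hy1
    refine ⟨n, ?_, hyW⟩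
    by_contra hcon
    exact hy2 ⟨n, by simpa using hcon, rfl⟩

theorem transfer_hypercyclic [CompleteSpace E₁] [SecondCountableTopology E₁]
    {T₁ : E₁ →L[ℂ] E₁} {T₂ : E₂ →L[ℂ] E₂}
    (hS : ∀ W₁ W₂ : Set E₁, IsOpen W₁ → IsOpen W₂ → W₁.Nonempty → W₂.Nonempty →
      ∃ S : E₂ →L[ℂ] E₁, (∀ f, T₁ (S f) = S (T₂ f)) ∧ (S ⁻¹' W₁).Nonempty ∧ (S ⁻¹' W₂).Nonempty)
    (h : IsHypercyclic T₂) : IsHypercyclic T₁ := by
  obtain ⟨f, hf⟩ := h
  -- topological transitivity of T₁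
  have htr : ∀ W₁ W₂ : Set E₁, IsOpen W₁ → IsOpen W₂ → W₁.Nonempty → W₂.Nonempty →
      ∃ (n : ℕ) (x : E₁), x ∈ W₁ ∧ T₁^[n] x ∈ W₂ := by
    intro W₁ W₂ h1 h2 n1 n2
    obtain ⟨S, hint, m1, m2⟩ := hS W₁ W₂ h1 h2 n1 n2
    obtain ⟨m, -, hm⟩ := visit_late hf (h1.preimage S.continuous) m1 0
    obtain ⟨n, hmn, hn⟩ := visit_late hf (h2.preimage S.continuous) m2 m
    refine ⟨n - m, S (T₂^[m] f), hm, ?_⟩
    rw [intertwine_iterate hint, ← Function.iterate_add_apply, Nat.sub_add_cancel hmn]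
    exact hn
  -- Birkhoff
  let B := TopologicalSpace.countableBasis E₁
  have hB : TopologicalSpace.IsTopologicalBasis B := TopologicalSpace.isBasis_countableBasis E₁
  have hBc : B.Countable := TopologicalSpace.countable_countableBasis E₁
  have hBne : ∀ V ∈ B, V.Nonempty := fun V hV => TopologicalSpace.nonempty_of_mem_countableBasis hV
  have hdense : Dense (⋂ V ∈ B, ⋃ n : ℕ, (fun x => T₁^[n] x) ⁻¹' V) := by
    apply dense_biInter_of_isOpen
    · intro V hV
      exact isOpen_iUnion fun n => (hB.isOpen hV).preimage (T₁.continuous.iterate n)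
    · exact hBc
    · intro V hV
      rw [dense_iff_inter_open]
      intro W hW hWne
      obtain ⟨n, x, hx1, hx2⟩ := htr W V hW (hB.isOpen hV) hWne (hBne V hV)
      exact ⟨x, hx1, Set.mem_iUnion.mpr ⟨n, hx2⟩⟩
  obtain ⟨x, hx⟩ := hdense.nonempty
  refine ⟨x, ?_⟩
  rw [hB.dense_iff]
  intro V hV _
  have := Set.mem_iInter₂.mp hx V hV
  obtain ⟨n, hn⟩ := Set.mem_iUnion.mp this
  exact ⟨T₁^[n] x, hn, ⟨n, rfl⟩⟩

theorem transfer_periodic
    {T₁ : E₁ →L[ℂ] E₁} {T₂ : E₂ →L[ℂ] E₂}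
    (hS : ∀ W₁ W₂ : Set E₁, IsOpen W₁ → IsOpen W₂ → W₁.Nonempty → W₂.Nonempty →
      ∃ S : E₂ →L[ℂ] E₁, (∀ f, T₁ (S f) = S (T₂ f)) ∧ (S ⁻¹' W₁).Nonempty ∧ (S ⁻¹' W₂).Nonempty)
    (h : Dense {f : E₂ | ∃ N : ℕ, 1 ≤ N ∧ T₂^[N] f = f}) :
    Dense {f : E₁ | ∃ N : ℕ, 1 ≤ N ∧ T₁^[N] f = f} := by
  rw [dense_iff_inter_open]
  intro W hW hWne
  obtain ⟨S, hint, m1, -⟩ := hS W W hW hW hWne hWne
  obtain ⟨f, hfW, N, hN, hf⟩ := h.inter_open_nonempty _ (hW.preimage S.continuous) m1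
  exact ⟨S f, hfW, N, hN, by rw [intertwine_iterate hint, hf]⟩

end abstract_part



section measure_part

variable {G X : Type*} [Group G] [TopologicalSpace G] [IsTopologicalGroup G]
  [SecondCountableTopology G] [MeasurableSpace G] [BorelSpace G]
  [TopologicalSpace X] [SecondCountableTopology X] [MeasurableSpace X] [BorelSpace X]
  [MulAction G X] [ContinuousSMul G X] [MulAction.IsPretransitive G X]

theorem map_orbit_eq (ρ : Measure G) [ρ.IsMulRightInvariant] (x y : X) :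
    ρ.map (fun g => g • x) = ρ.map (fun g => g • y) := by
  obtain ⟨h, rfl⟩ := MulAction.exists_smul_eq G y x
  have h1 : (fun g : G => g • h • y) = (fun g : G => g • y) ∘ (fun g => g * h) := by
    ext g
    simp [mul_smul]
  rw [h1, ← Measure.map_map (by fun_prop) (by fun_prop), map_mul_right_eq_self]

/-- uniqueness of the invariant measure in the form we need -/
theorem exists_orbit_const [R1Space X] [LocallyCompactSpace X] [Nonempty X] (ν : Measure G) [ν.IsMulLeftInvariant]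
    [ν.IsMulRightInvariant] [IsFiniteMeasureOnCompacts ν] [SFinite ν]
    (μ : Measure X) [SMulInvariantMeasure G X μ]
    [IsFiniteMeasureOnCompacts μ] [SigmaFinite μ] (hμ : μ ≠ 0)
    (hcpt : ∀ (x : X) (C : Set X), IsCompact C → IsCompact ((fun g : G => g • x) ⁻¹' C)) :
    ∃ c : ℝ≥0∞, c ≠ ∞ ∧ ∀ x : X, ν.map (fun g => g • x) = c • μ := by
  obtain ⟨x₀⟩ := ‹Nonempty X›
  -- the key symmetric identity
  have key : ∀ A B : Set X, MeasurableSet A → MeasurableSet B →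
      (ν.map (fun g => g • x₀)) A * μ B = μ A * (ν.inv.map (fun g => g • x₀)) B := by
    intro A B hA hB
    have hmeas : Measurable (fun p : X × G => A.indicator (1 : X → ℝ≥0∞) (p.2 • p.1) *
        B.indicator (1 : X → ℝ≥0∞) p.1) := by
      have h1 : Measurable (fun p : X × G => p.2 • p.1) := by fun_prop
      exact ((measurable_one.indicator hA).comp h1).mul
        ((measurable_one.indicator hB).comp measurable_fst)
    have e1 : ∫⁻ x, ∫⁻ g, A.indicator (1 : X → ℝ≥0∞) (g • x) *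
        B.indicator (1 : X → ℝ≥0∞) x ∂ν ∂μ = (ν.map (fun g => g • x₀)) A * μ B := by
      have : ∀ x : X, ∫⁻ g, A.indicator (1 : X → ℝ≥0∞) (g • x) *
        B.indicator (1 : X → ℝ≥0∞) x ∂ν = (ν.map (fun g => g • x₀)) A *
          B.indicator (1 : X → ℝ≥0∞) x := by
        intro x
        rw [lintegral_mul_const]
        · congr 1
          rw [← map_orbit_eq ν x x₀, Measure.map_apply (by fun_prop) hA]
          have : (fun g : G => A.indicator (1 : X → ℝ≥0∞) (g • x)) =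
              ((fun g : G => g • x) ⁻¹' A).indicator 1 := by
            rfl
          rw [this, lintegral_indicator_one]
          exact (by fun_prop : Measurable (fun g : G => g • x)) hA
        · exact (measurable_one.indicator hA).comp (by fun_prop)
      simp_rw [this]
      rw [lintegral_const_mul _ (measurable_one.indicator hB), lintegral_indicator_one hB]
    have e2 : ∫⁻ g, ∫⁻ x, A.indicator (1 : X → ℝ≥0∞) (g • x) *
        B.indicator (1 : X → ℝ≥0∞) x ∂μ ∂ν = μ A * (ν.inv.map (fun g => g • x₀)) B := by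
      have h3 : ∀ g : G, ∫⁻ x, A.indicator (1 : X → ℝ≥0∞) (g • x) *
        B.indicator (1 : X → ℝ≥0∞) x ∂μ = ∫⁻ x, A.indicator (1 : X → ℝ≥0∞) x *
        B.indicator (1 : X → ℝ≥0∞) (g⁻¹ • x) ∂μ := by
        intro g
        have := (measurePreserving_smul g μ).lintegral_comp_emb (measurableEmbedding_const_smul g)
          (fun x => A.indicator (1 : X → ℝ≥0∞) x * B.indicator (1 : X → ℝ≥0∞) (g⁻¹ • x))
        rw [← this]
        simp
      simp_rw [h3]
      have hmeas2 : Measurable (fun p : G × X => A.indicator (1 : X → ℝ≥0∞) p.2 *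
        B.indicator (1 : X → ℝ≥0∞) (p.1⁻¹ • p.2)) := by
        have h1 : Measurable (fun p : G × X => p.1⁻¹ • p.2) := by fun_prop
        exact ((measurable_one.indicator hA).comp measurable_snd).mul
          ((measurable_one.indicator hB).comp h1)
      rw [lintegral_lintegral_swap hmeas2.aemeasurable]
      have : ∀ x : X, ∫⁻ g, A.indicator (1 : X → ℝ≥0∞) x *
        B.indicator (1 : X → ℝ≥0∞) (g⁻¹ • x) ∂ν = (ν.inv.map (fun g => g • x₀)) B *
          A.indicator (1 : X → ℝ≥0∞) x := by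
        intro x
        rw [lintegral_const_mul, mul_comm]
        · congr 1
          rw [← map_orbit_eq ν.inv x x₀, Measure.map_apply (by fun_prop) hB, Measure.inv,
            Measure.map_apply measurable_inv ((by fun_prop : Measurable (fun g : G => g • x)) hB)]
          have : (fun g : G => B.indicator (1 : X → ℝ≥0∞) (g⁻¹ • x)) =
              (Inv.inv ⁻¹' ((fun g : G => g • x) ⁻¹' B)).indicator 1 := by
            rfl
          rw [this, lintegral_indicator_one]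
          exact measurable_inv ((by fun_prop : Measurable (fun g : G => g • x)) hB)
        · exact (measurable_one.indicator hB).comp (by fun_prop)
      simp_rw [this]
      rw [lintegral_const_mul _ (measurable_one.indicator hA), lintegral_indicator_one hA, mul_comm]
    rw [← e1, ← e2, lintegral_lintegral_swap hmeas.aemeasurable]
  -- a good set B
  obtain ⟨C, hC, hC0⟩ : ∃ C : Set X, IsCompact C ∧ μ C ≠ 0 := by
    by_contra hcon
    push Not at hcon
    apply hμ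
    have : μ Set.univ = 0 := by
      rw [← iUnion_compactCovering X]
      exact measure_iUnion_null fun n => hcon _ (isCompact_compactCovering X n)
    exact Measure.measure_univ_eq_zero.mp this
  set B := closure C with hB
  have hBc : IsCompact B := hC.closure
  have hBm : MeasurableSet B := isClosed_closure.measurableSet
  have hB0 : μ B ≠ 0 := fun h => hC0 (measure_mono_null subset_closure h)
  have hBt : μ B ≠ ∞ := hBc.measure_lt_top.ne
  have hl : (ν.inv.map (fun g => g • x₀)) B ≠ ∞ := by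
    rw [Measure.map_apply (by fun_prop) hBm, Measure.inv,
            Measure.map_apply measurable_inv ((by fun_prop : Measurable (fun g : G => g • x₀)) hBm)]
    have : IsCompact (Inv.inv ⁻¹' ((fun g : G => g • x₀) ⁻¹' B)) := by
      rw [Set.inv_preimage]
      exact (hcpt x₀ B hBc).inv
    exact this.measure_lt_top.ne
  refine ⟨(ν.inv.map (fun g => g • x₀)) B / μ B, ENNReal.div_ne_top hl hB0, fun x => ?_⟩
  rw [map_orbit_eq ν x x₀]
  ext A hA
  have := key A B hA hBm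
  rw [Measure.smul_apply, smul_eq_mul]
  rw [ENNReal.div_eq_inv_mul, mul_assoc, mul_comm _ (μ A), ← this, mul_comm _ (μ B), ← mul_assoc,
    ENNReal.inv_mul_cancel hB0 hBt, one_mul]

end measure_part



section avg_part

variable {G X : Type*} [Group G] [TopologicalSpace G] [IsTopologicalGroup G]
  [SecondCountableTopology G] [MeasurableSpace G] [BorelSpace G]
  [TopologicalSpace X] [SecondCountableTopology X] [MeasurableSpace X] [BorelSpace X]
  [MulAction G X] [ContinuousSMul G X]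

/-- the average of the translates of `f` over `U` -/
noncomputable def avg (ν : Measure G) (U : Set G) (f : X → ℂ) (x : X) : ℂ :=
  ∫ g in U, f (g • x) ∂ν

variable {ν : Measure G} {μ : Measure X} {c : ℝ≥0∞}

theorem qmp (hK : ∀ x : X, ν.map (fun g => g • x) = c • μ) (x : X) :
    Measure.QuasiMeasurePreserving (fun g : G => g • x) ν μ :=
  ⟨by fun_prop, by rw [hK x]; exact Measure.smul_absolutelyContinuous⟩

theorem avg_congr (hK : ∀ x : X, ν.map (fun g => g • x) = c • μ) (U : Set G) {f f' : X → ℂ}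
    (h : f =ᵐ[μ] f') : avg ν U f = avg ν U f' := by
  ext x
  refine integral_congr_ae ?_
  exact ae_restrict_of_ae ((qmp hK x).ae_eq_comp h)

theorem eLpNorm_orbit (hK : ∀ x : X, ν.map (fun g => g • x) = c • μ) {f : X → ℂ}
    (hf : AEStronglyMeasurable f μ) {p : ℝ≥0∞} (hp : p ≠ ∞) (x : X) :
    eLpNorm (fun g : G => f (g • x)) p ν = c ^ (1 / p).toReal * eLpNorm f p μ := by
  have h1 : AEStronglyMeasurable f (ν.map (fun g => g • x)) := by
    rw [hK x]; exact hf.mono_ac Measure.smul_absolutelyContinuous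
  have := eLpNorm_map_measure (p := p) h1 (by fun_prop : AEMeasurable (fun g : G => g • x) ν)
  rw [hK x, eLpNorm_smul_measure_of_ne_top hp, smul_eq_mul] at this
  rw [this]
  rfl

theorem enorm_avg_le (hK : ∀ x : X, ν.map (fun g => g • x) = c • μ) {U : Set G} {f : X → ℂ}
    (hf : AEStronglyMeasurable f μ) {p : ℝ≥0∞} (hp1 : 1 ≤ p) (x : X) :
    ‖avg ν U f x‖ₑ ≤ eLpNorm (fun g : G => f (g • x)) p (ν.restrict U) *
      ν U ^ (1 - 1 / p.toReal) := by
  have h1 : AEStronglyMeasurable (fun g : G => f (g • x)) (ν.restrict U) :=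
    (hf.comp_quasiMeasurePreserving (qmp hK x)).restrict
  have h2 := eLpNorm_le_eLpNorm_mul_rpow_measure_univ hp1 h1
  rw [Measure.restrict_apply_univ, ENNReal.toReal_one, div_one] at h2
  refine le_trans ?_ h2
  rw [eLpNorm_one_eq_lintegral_enorm]
  exact enorm_integral_le_lintegral_enorm _

theorem lintegral_orbit_pow [SFinite ν] [SFinite μ] [SMulInvariantMeasure G X μ] {U : Set G}
    {f : X → ℂ} (hf : StronglyMeasurable f) {p : ℝ≥0∞} (hp0 : p ≠ 0) (hp : p ≠ ∞) :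
    ∫⁻ x, (eLpNorm (fun g : G => f (g • x)) p (ν.restrict U)) ^ p.toReal ∂μ =
      ν U * (eLpNorm f p μ) ^ p.toReal := by
  have hp' : 0 < p.toReal := ENNReal.toReal_pos hp0 hp
  have h1 : ∀ x : X, (eLpNorm (fun g : G => f (g • x)) p (ν.restrict U)) ^ p.toReal =
      ∫⁻ g in U, ‖f (g • x)‖ₑ ^ p.toReal ∂ν := by
    intro x
    rw [eLpNorm_eq_lintegral_rpow_enorm_toReal hp0 hp, ← ENNReal.rpow_mul, one_div,
      inv_mul_cancel₀ hp'.ne', ENNReal.rpow_one]
  simp_rw [h1]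
  have hmeas : Measurable (fun q : X × G => ‖f (q.2 • q.1)‖ₑ ^ p.toReal) := by
    have : Measurable (fun q : X × G => q.2 • q.1) := by fun_prop
    exact ((hf.measurable.comp this).enorm).pow_const _
  rw [lintegral_lintegral_swap hmeas.aemeasurable]
  have h2 : ∀ g : G, ∫⁻ x, ‖f (g • x)‖ₑ ^ p.toReal ∂μ = (eLpNorm f p μ) ^ p.toReal := by
    intro g
    rw [eLpNorm_eq_lintegral_rpow_enorm_toReal hp0 hp, ← ENNReal.rpow_mul, one_div,
      inv_mul_cancel₀ hp'.ne', ENNReal.rpow_one]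
    exact (measurePreserving_smul g μ).lintegral_comp (hf.measurable.enorm.pow_const _)
  simp_rw [h2]
  rw [lintegral_const, Measure.restrict_apply_univ, mul_comm]

/-- the operator-norm constant -/
noncomputable def cst (c : ℝ≥0∞) (m : ℝ≥0∞) (p q : ℝ≥0∞) : ℝ≥0∞ :=
  ((m ^ (1 - 1 / p.toReal)) ^ q.toReal * (c ^ (1 / p).toReal) ^ (q.toReal - p.toReal) * m) ^
    (1 / q.toReal)

theorem cst_ne_top {c m p q : ℝ≥0∞} (hc : c ≠ ∞) (hm : m ≠ ∞) (hp1 : 1 ≤ p) (hp : p ≠ ∞)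
    (hpq : p ≤ q) (hq : q ≠ ∞) : cst c m p q ≠ ∞ := by
  unfold cst
  have hp' : 1 ≤ p.toReal := by
    rw [← ENNReal.toReal_one]; exact ENNReal.toReal_mono hp hp1
  have hq' : p.toReal ≤ q.toReal := ENNReal.toReal_mono hq hpq
  have h1 : 1 / p.toReal ≤ 1 := by
    rw [div_le_one (by linarith)]; exact hp'
  refine ENNReal.rpow_ne_top_of_nonneg (by positivity) ?_
  refine ENNReal.mul_ne_top (ENNReal.mul_ne_top ?_ ?_) hm
  · exact ENNReal.rpow_ne_top_of_nonneg (by positivity)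
      (ENNReal.rpow_ne_top_of_nonneg (by linarith) hm)
  · exact ENNReal.rpow_ne_top_of_nonneg (by linarith)
      (ENNReal.rpow_ne_top_of_nonneg (by positivity) hc)

theorem eLpNorm_avg_le [SFinite ν] [SFinite μ] [SMulInvariantMeasure G X μ]
    (hK : ∀ x : X, ν.map (fun g => g • x) = c • μ) {U : Set G}
    {f : X → ℂ} (hf : StronglyMeasurable f) {p q : ℝ≥0∞} (hp1 : 1 ≤ p) (hpq : p ≤ q) (hq : q ≠ ∞) :
    eLpNorm (avg ν U f) q μ ≤ cst c (ν U) p q * eLpNorm f p μ := by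
  have hp : p ≠ ∞ := ne_top_of_le_ne_top hq hpq
  have hp0 : p ≠ 0 := (lt_of_lt_of_le one_pos hp1).ne'
  have hq0 : q ≠ 0 := (lt_of_lt_of_le one_pos (hp1.trans hpq)).ne'
  have hp' : 0 < p.toReal := ENNReal.toReal_pos hp0 hp
  have hq' : p.toReal ≤ q.toReal := ENNReal.toReal_mono hq hpq
  have hq'' : 0 < q.toReal := ENNReal.toReal_pos hq0 hq
  set a : X → ℝ≥0∞ := fun x => eLpNorm (fun g : G => f (g • x)) p (ν.restrict U) with ha
  have ha1 : ∀ x, a x ≤ c ^ (1 / p).toReal * eLpNorm f p μ := by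
    intro x
    rw [← eLpNorm_orbit hK hf.aestronglyMeasurable hp x]
    exact eLpNorm_mono_measure _ Measure.restrict_le_self
  have h1 : ∫⁻ x, ‖avg ν U f x‖ₑ ^ q.toReal ∂μ ≤
      ((ν U ^ (1 - 1 / p.toReal)) ^ q.toReal * (c ^ (1 / p).toReal) ^ (q.toReal - p.toReal) * ν U)
        * (eLpNorm f p μ) ^ q.toReal := by
    calc ∫⁻ x, ‖avg ν U f x‖ₑ ^ q.toReal ∂μ
        ≤ ∫⁻ x, ((ν U ^ (1 - 1 / p.toReal)) ^ q.toReal *
            (c ^ (1 / p).toReal * eLpNorm f p μ) ^ (q.toReal - p.toReal)) * (a x) ^ p.toReal ∂μ := by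
          refine lintegral_mono fun x => ?_
          calc ‖avg ν U f x‖ₑ ^ q.toReal ≤ (a x * ν U ^ (1 - 1 / p.toReal)) ^ q.toReal :=
                ENNReal.rpow_le_rpow (enorm_avg_le hK hf.aestronglyMeasurable hp1 x) hq''.le
            _ = (ν U ^ (1 - 1 / p.toReal)) ^ q.toReal * ((a x) ^ (q.toReal - p.toReal) *
                  (a x) ^ p.toReal) := by
                rw [ENNReal.mul_rpow_of_nonneg _ _ hq''.le, mul_comm,
                  ← ENNReal.rpow_add_of_nonneg _ _ (by linarith) hp'.le]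
                congr 2
                ring
            _ ≤ _ := by
                rw [← mul_assoc]
                gcongr
                exact ha1 x
      _ = ((ν U ^ (1 - 1 / p.toReal)) ^ q.toReal *
            (c ^ (1 / p).toReal * eLpNorm f p μ) ^ (q.toReal - p.toReal)) *
            (ν U * (eLpNorm f p μ) ^ p.toReal) := by
          rw [lintegral_const_mul'', lintegral_orbit_pow hf hp0 hp]
          have hmeas : Measurable (fun q : X × G => ‖f (q.2 • q.1)‖ₑ ^ p.toReal) := by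
            have : Measurable (fun q : X × G => q.2 • q.1) := by fun_prop
            exact ((hf.measurable.comp this).enorm).pow_const _
          have h2 : (fun x => a x ^ p.toReal) = fun x : X =>
              ∫⁻ g in U, ‖f (g • x)‖ₑ ^ p.toReal ∂ν := by
            ext x
            simp only [ha]
            rw [eLpNorm_eq_lintegral_rpow_enorm_toReal hp0 hp, ← ENNReal.rpow_mul, one_div,
              inv_mul_cancel₀ hp'.ne', ENNReal.rpow_one]
          rw [h2]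
          exact hmeas.lintegral_prod_right'.aemeasurable
      _ = _ := by
          rw [ENNReal.mul_rpow_of_nonneg _ _ (by linarith : 0 ≤ q.toReal - p.toReal)]
          have : (eLpNorm f p μ) ^ q.toReal =
              (eLpNorm f p μ) ^ (q.toReal - p.toReal) * (eLpNorm f p μ) ^ p.toReal := by
            rw [← ENNReal.rpow_add_of_nonneg _ _ (by linarith) hp'.le]
            congr 1
            ring
          rw [this]
          ring
  rw [eLpNorm_eq_lintegral_rpow_enorm_toReal hq0 hq, cst]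
  generalize (ν U ^ (1 - 1 / p.toReal)) ^ q.toReal *
      (c ^ (1 / p).toReal) ^ (q.toReal - p.toReal) * ν U = M at h1 ⊢
  calc _ ≤ (M * (eLpNorm f p μ) ^ q.toReal) ^ (1 / q.toReal) :=
        ENNReal.rpow_le_rpow h1 (by positivity)
    _ = _ := by
        rw [ENNReal.mul_rpow_of_nonneg _ _ (by positivity : 0 ≤ 1 / q.toReal), ← ENNReal.rpow_mul,
          mul_one_div_cancel hq''.ne', ENNReal.rpow_one]

theorem stronglyMeasurable_avg [SFinite ν] {U : Set G} {f : X → ℂ} (hf : StronglyMeasurable f) :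
    StronglyMeasurable (avg ν U f) := by
  have : StronglyMeasurable (fun q : X × G => f (q.2 • q.1)) :=
    hf.comp_measurable (by fun_prop)
  exact this.integral_prod_right'

end avg_part


section bochner_part

variable {G X : Type*} [Group G] [TopologicalSpace G] [IsTopologicalGroup G]
  [SecondCountableTopology G] [MeasurableSpace G] [BorelSpace G]
  [TopologicalSpace X] [SecondCountableTopology X] [MeasurableSpace X] [BorelSpace X]
  [MulAction G X] [ContinuousSMul G X]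

variable {ν : Measure G} {μ : Measure X} {c : ℝ≥0∞}

/-- the functional `f ↦ ∫_A f` on `L^p` -/
noncomputable def setIntCLM (μ : Measure X) (p : ℝ≥0∞) [hp : Fact (1 ≤ p)] (A : Set X)
    (hμA : μ A < ∞) : Lp ℂ p μ →L[ℂ] ℂ :=
  LinearMap.mkContinuous
    { toFun := fun f => ∫ x in A, f x ∂μ
      map_add' := fun f g => by
        have : IsFiniteMeasure (μ.restrict A) := ⟨by simpa using hμA⟩
        rw [← integral_add (((Lp.memLp f).restrict A).integrable hp.out)
          (((Lp.memLp g).restrict A).integrable hp.out)]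
        exact integral_congr_ae (ae_restrict_of_ae (Lp.coeFn_add f g))
      map_smul' := fun r f => by
        rw [RingHom.id_apply, ← integral_smul]
        exact integral_congr_ae (ae_restrict_of_ae (Lp.coeFn_smul r f)) }
    (μ A ^ (1 - 1 / p.toReal)).toReal
    (by
      intro f
      have : IsFiniteMeasure (μ.restrict A) := ⟨by simpa using hμA⟩
      simp only [LinearMap.coe_mk, AddHom.coe_mk]
      have h1 := eLpNorm_le_eLpNorm_mul_rpow_measure_univ hp.out
        (((Lp.memLp f).restrict A).aestronglyMeasurable)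
      rw [Measure.restrict_apply_univ, ENNReal.toReal_one, div_one] at h1
      have h2 : ‖∫ x in A, f x ∂μ‖ₑ ≤ eLpNorm f p μ * μ A ^ (1 - 1 / p.toReal) := by
        refine (enorm_integral_le_lintegral_enorm _).trans ?_
        rw [← eLpNorm_one_eq_lintegral_enorm]
        refine h1.trans ?_
        gcongr
        exact Measure.restrict_le_self
      have hfin : μ A ^ (1 - 1 / p.toReal) ≠ ∞ := by
        refine ENNReal.rpow_ne_top_of_nonneg ?_ hμA.ne
        rcases eq_or_ne p ∞ with rfl | hp'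
        · simp
        · have hp1 : 1 ≤ p.toReal := by
            rw [← ENNReal.toReal_one]; exact ENNReal.toReal_mono hp' hp.out
          have : 1 / p.toReal ≤ 1 := by
            rw [div_le_one (by linarith)]; exact hp1
          linarith
      have h3 := ENNReal.toReal_mono (ENNReal.mul_ne_top (Lp.eLpNorm_ne_top f) hfin) h2
      rw [toReal_enorm, ENNReal.toReal_mul] at h3
      rw [Lp.norm_def, mul_comm]
      exact h3)

theorem setIntCLM_apply {p : ℝ≥0∞} [hp : Fact (1 ≤ p)] {A : Set X}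
    (hμA : μ A < ∞) (f : Lp ℂ p μ) : setIntCLM μ p A hμA f = ∫ x in A, f x ∂μ := rfl

variable [R1Space X] [IsLocallyFiniteMeasure μ] [μ.InnerRegularCompactLTTop]
  [SMulInvariantMeasure G X μ] [SigmaFinite μ] [SFinite ν] [IsFiniteMeasureOnCompacts ν]

theorem continuous_mk_smul {p : ℝ≥0∞} [hp : Fact (1 ≤ p)] [hp' : Fact (p ≠ ∞)] (f : Lp ℂ p μ) :
    Continuous (fun g : G => DomMulAct.mk g • f) := by
  have h1 : Continuous (fun g : G => (DomMulAct.mk g, f)) :=
    (DomMulAct.continuous_mk).prodMk continuous_const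
  exact continuous_smul.comp h1

theorem integrableOn_mk_smul {p : ℝ≥0∞} [hp : Fact (1 ≤ p)] [hp' : Fact (p ≠ ∞)] (f : Lp ℂ p μ)
    {U : Set G} (hUf : ν U < ∞) :
    IntegrableOn (fun g : G => DomMulAct.mk g • f) U ν := by
  have : IsFiniteMeasure (ν.restrict U) := ⟨by simpa using hUf⟩
  have hsep : AEStronglyMeasurable (fun g : G => DomMulAct.mk g • f) (ν.restrict U) :=
    (continuous_mk_smul f).aestronglyMeasurable
  refine (integrable_const (‖f‖)).mono' hsep ?_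
  exact Eventually.of_forall fun g => by rw [DomMulAct.norm_smul_Lp]

theorem bochner_ae_eq_avg (hc : c ≠ ∞) (hK : ∀ x : X, ν.map (fun g => g • x) = c • μ)
    {p : ℝ≥0∞} [hp : Fact (1 ≤ p)] [hp' : Fact (p ≠ ∞)] (f : Lp ℂ p μ)
    {U : Set G} (hUf : ν U < ∞) :
    ((∫ g in U, (DomMulAct.mk g • f) ∂ν : Lp ℂ p μ) : X → ℂ) =ᵐ[μ] avg ν U f := by
  have hfm : StronglyMeasurable (f : X → ℂ) := Lp.stronglyMeasurable f
  have havg : MemLp (avg ν U f) p μ := by
    refine ⟨(stronglyMeasurable_avg hfm).aestronglyMeasurable, ?_⟩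
    refine (eLpNorm_avg_le hK hfm hp.out le_rfl hp'.out).trans_lt ?_
    exact ENNReal.mul_lt_top (cst_ne_top hc hUf.ne hp.out hp'.out le_rfl hp'.out).lt_top
      (Lp.eLpNorm_lt_top f)
  refine ae_eq_of_forall_setIntegral_eq_of_sigmaFinite ?_ ?_ ?_
  · intro A hA hμA
    have : IsFiniteMeasure (μ.restrict A) := ⟨by simpa using hμA⟩
    exact ((Lp.memLp _).restrict A).integrable hp.out
  · intro A hA hμA
    have : IsFiniteMeasure (μ.restrict A) := ⟨by simpa using hμA⟩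
    exact (havg.restrict A).integrable hp.out
  · intro A hA hμA
    have : IsFiniteMeasure (μ.restrict A) := ⟨by simpa using hμA⟩
    have : IsFiniteMeasure (ν.restrict U) := ⟨by simpa using hUf⟩
    have h1 := ContinuousLinearMap.integral_comp_comm (setIntCLM μ p A hμA)
      (integrableOn_mk_smul f hUf)
    rw [setIntCLM_apply] at h1
    rw [← h1]
    have h2 : ∀ g : G, setIntCLM μ p A hμA (DomMulAct.mk g • f) = ∫ x in A, f (g • x) ∂μ := by
      intro g
      rw [setIntCLM_apply]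
      exact integral_congr_ae (ae_restrict_of_ae (DomMulAct.smul_Lp_ae_eq (DomMulAct.mk g) f))
    simp_rw [h2]
    unfold avg
    refine integral_integral_swap ?_
    -- integrability on the product
    have hm : StronglyMeasurable (Function.uncurry fun (g : G) (x : X) => f (g • x)) :=
      hfm.comp_measurable (by fun_prop : Measurable (fun q : G × X => q.1 • q.2))
    refine ⟨hm.aestronglyMeasurable, ?_⟩
    rw [HasFiniteIntegral, lintegral_prod _ hm.enorm.aemeasurable]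
    have h3 : ∀ g : G, ∫⁻ x in A, ‖f (g • x)‖ₑ ∂μ ≤ eLpNorm f p μ * μ A ^ (1 - 1 / p.toReal) := by
      intro g
      have hmp : MeasurePreserving (fun x : X => g • x) μ μ := measurePreserving_smul g μ
      have hmem : MemLp (fun x : X => f (g • x)) p μ := (Lp.memLp f).comp_measurePreserving hmp
      have h4 := eLpNorm_le_eLpNorm_mul_rpow_measure_univ hp.out
        ((hmem.restrict A).aestronglyMeasurable)
      rw [Measure.restrict_apply_univ, ENNReal.toReal_one, div_one,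
        eLpNorm_one_eq_lintegral_enorm] at h4
      refine h4.trans ?_
      gcongr
      refine (eLpNorm_mono_measure _ Measure.restrict_le_self).trans ?_
      have := eLpNorm_comp_measurePreserving (p := p) hfm.aestronglyMeasurable hmp
      exact this.le
    have hfin : μ A ^ (1 - 1 / p.toReal) ≠ ∞ := by
      refine ENNReal.rpow_ne_top_of_nonneg ?_ hμA.ne
      have hp1 : 1 ≤ p.toReal := by
        rw [← ENNReal.toReal_one]; exact ENNReal.toReal_mono hp'.out hp.out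
      have : 1 / p.toReal ≤ 1 := by
        rw [div_le_one (by linarith)]; exact hp1
      linarith
    calc ∫⁻ g in U, ∫⁻ x in A, ‖f (g • x)‖ₑ ∂μ ∂ν
        ≤ ∫⁻ g in U, eLpNorm f p μ * μ A ^ (1 - 1 / p.toReal) ∂ν := lintegral_mono fun g => h3 g
      _ < ∞ := by
        rw [lintegral_const, Measure.restrict_apply_univ]
        exact ENNReal.mul_lt_top (ENNReal.mul_lt_top (Lp.eLpNorm_lt_top f) hfin.lt_top) hUf

theorem memLp_avg (hc : c ≠ ∞) (hK : ∀ x : X, ν.map (fun g => g • x) = c • μ)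
    {p q : ℝ≥0∞} [hp : Fact (1 ≤ p)] (hpq : p ≤ q) (hq' : q ≠ ∞)
    {U : Set G} (hUf : ν U < ∞) (f : Lp ℂ p μ) : MemLp (avg ν U f) q μ := by
  refine ⟨(stronglyMeasurable_avg (Lp.stronglyMeasurable f)).aestronglyMeasurable, ?_⟩
  refine (eLpNorm_avg_le hK (Lp.stronglyMeasurable f) hp.out hpq hq').trans_lt ?_
  exact ENNReal.mul_lt_top (cst_ne_top hc hUf.ne hp.out
    (ne_top_of_le_ne_top hq' hpq) hpq hq').lt_top (Lp.eLpNorm_lt_top f)

/-- averaging as a bounded operator `L^p → L^q`, `p ≤ q` -/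
noncomputable def avgCLM (hc : c ≠ ∞) (hK : ∀ x : X, ν.map (fun g => g • x) = c • μ)
    (p q : ℝ≥0∞) [hp : Fact (1 ≤ p)] [hq : Fact (1 ≤ q)] (hpq : p ≤ q) (hq' : q ≠ ∞)
    {U : Set G} (hUf : ν U < ∞) : Lp ℂ p μ →L[ℂ] Lp ℂ q μ :=
  have hint : ∀ (f : Lp ℂ p μ) (x : X), IntegrableOn (fun g : G => f (g • x)) U ν := fun f x => by
    have : IsFiniteMeasure (ν.restrict U) := ⟨by simpa using hUf⟩
    have h1 : MemLp (fun g : G => f (g • x)) p ν := by
      refine ⟨(Lp.aestronglyMeasurable f).comp_quasiMeasurePreserving (qmp hK x), ?_⟩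
      rw [eLpNorm_orbit hK (Lp.aestronglyMeasurable f) (ne_top_of_le_ne_top hq' hpq)]
      exact ENNReal.mul_lt_top (ENNReal.rpow_ne_top_of_nonneg (by positivity) hc).lt_top
        (Lp.eLpNorm_lt_top f)
    exact (h1.restrict U).integrable hp.out
  LinearMap.mkContinuous
    { toFun := fun f => (memLp_avg hc hK hpq hq' hUf f).toLp (avg ν U f)
      map_add' := fun f g => by
        rw [← MemLp.toLp_add]
        apply MemLp.toLp_congr
        refine Eventually.of_forall fun x => ?_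
        rw [avg_congr hK U (Lp.coeFn_add f g), Pi.add_apply]
        exact integral_add (hint f x) (hint g x)
      map_smul' := fun r f => by
        rw [RingHom.id_apply, ← MemLp.toLp_const_smul]
        apply MemLp.toLp_congr
        refine Eventually.of_forall fun x => ?_
        rw [avg_congr hK U (Lp.coeFn_smul r f), Pi.smul_apply]
        exact integral_smul r _ }
    (cst c (ν U) p q).toReal
    (by
      intro f
      simp only [LinearMap.coe_mk, AddHom.coe_mk]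
      rw [Lp.norm_toLp, Lp.norm_def, ← ENNReal.toReal_mul]
      refine ENNReal.toReal_mono (ENNReal.mul_ne_top (cst_ne_top hc hUf.ne hp.out
        (ne_top_of_le_ne_top hq' hpq) hpq hq') (Lp.eLpNorm_ne_top f)) ?_
      exact eLpNorm_avg_le hK (Lp.stronglyMeasurable f) hp.out hpq hq')

theorem avgCLM_ae (hc : c ≠ ∞) (hK : ∀ x : X, ν.map (fun g => g • x) = c • μ)
    (p q : ℝ≥0∞) [hp : Fact (1 ≤ p)] [hq : Fact (1 ≤ q)] (hpq : p ≤ q) (hq' : q ≠ ∞)
    {U : Set G} (hUf : ν U < ∞) (f : Lp ℂ p μ) :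
    (avgCLM hc hK p q hpq hq' hUf f : X → ℂ) =ᵐ[μ] avg ν U f :=
  MemLp.coeFn_toLp (memLp_avg hc hK hpq hq' hUf f)

/-- The intertwining relation. -/
theorem avg_intertwine (hc : c ≠ ∞) (hK : ∀ x : X, ν.map (fun g => g • x) = c • μ)
    {p q : ℝ≥0∞} [hp : Fact (1 ≤ p)] [hq : Fact (1 ≤ q)] (hpq : p ≤ q) (hq' : q ≠ ∞)
    {U : Set G} (hUf : ν U < ∞) (T₁ : Lp ℂ q μ →L[ℂ] Lp ℂ q μ) (T₂ : Lp ℂ p μ →L[ℂ] Lp ℂ p μ)
    (hT₁ : ∀ (g : G) (f : Lp ℂ q μ), T₁ (DomMulAct.mk g • f) = DomMulAct.mk g • T₁ f)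
    (hD : Dense {f : Lp ℂ p μ | ∃ f' : Lp ℂ q μ, (f' : X → ℂ) =ᵐ[μ] f ∧
      (T₁ f' : X → ℂ) =ᵐ[μ] T₂ f}) (f : Lp ℂ p μ) :
    T₁ (avgCLM hc hK p q hpq hq' hUf f) = avgCLM hc hK p q hpq hq' hUf (T₂ f) := by
  have : Fact (q ≠ ∞) := ⟨hq'⟩
  set S := avgCLM hc hK p q hpq hq' hUf with hS
  have hclosed : IsClosed {f : Lp ℂ p μ | T₁ (S f) = S (T₂ f)} :=
    isClosed_eq (T₁.continuous.comp S.continuous) (S.continuous.comp T₂.continuous)
  have hsub : {f : Lp ℂ p μ | ∃ f' : Lp ℂ q μ, (f' : X → ℂ) =ᵐ[μ] f ∧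
      (T₁ f' : X → ℂ) =ᵐ[μ] T₂ f} ⊆ {f : Lp ℂ p μ | T₁ (S f) = S (T₂ f)} := by
    rintro f ⟨f', hf1, hf2⟩
    have key : ∀ (u : Lp ℂ q μ) (v : Lp ℂ p μ), (u : X → ℂ) =ᵐ[μ] v →
        S v = ∫ g in U, (DomMulAct.mk g • u) ∂ν := by
      intro u v huv
      apply Lp.ext
      refine (avgCLM_ae hc hK p q hpq hq' hUf v).trans ?_
      rw [← avg_congr hK U huv]
      exact (bochner_ae_eq_avg hc hK u hUf).symm
    show T₁ (S f) = S (T₂ f)
    rw [key f' f hf1, key (T₁ f') (T₂ f) hf2,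
      ← ContinuousLinearMap.integral_comp_comm T₁ (integrableOn_mk_smul f' hUf)]
    simp_rw [hT₁]
  exact (hclosed.closure_subset_iff.mpr hsub) (hD f)

/-- Elements of `L^q` that also lie in `L^p` are dense in `L^q`. -/
theorem dense_inter (p q : ℝ≥0∞) [hp : Fact (1 ≤ p)] [hq : Fact (1 ≤ q)]
    (hp' : p ≠ ∞) (hq' : q ≠ ∞) :
    Dense {u : Lp ℂ q μ | ∃ v : Lp ℂ p μ, (u : X → ℂ) =ᵐ[μ] v} := by
  have h := Lp.simpleFunc.denseRange (E := ℂ) (μ := μ) hq'
  refine h.mono ?_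
  rintro _ ⟨s, rfl⟩
  have hq0 : q ≠ 0 := (lt_of_lt_of_le one_pos hq.out).ne'
  have hp0 : p ≠ 0 := (lt_of_lt_of_le one_pos hp.out).ne'
  have h1 : MemLp (Lp.simpleFunc.toSimpleFunc s) q μ := Lp.simpleFunc.memLp s
  have h2 : MemLp (Lp.simpleFunc.toSimpleFunc s) p μ :=
    (SimpleFunc.memLp_iff hp0 hp').mpr ((SimpleFunc.memLp_iff hq0 hq').mp h1)
  refine ⟨h2.toLp _, ?_⟩
  refine (Lp.simpleFunc.toSimpleFunc_eq_toFun s).symm.trans ?_
  exact (MemLp.coeFn_toLp h2).symm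

/-- Approximation: the normalised averages are close to the identity. -/
theorem exists_good_set [LocallyCompactSpace G] [ν.IsOpenPosMeasure]
    {q : ℝ≥0∞} [hq : Fact (1 ≤ q)] [hq' : Fact (q ≠ ∞)] (u₁ u₂ : Lp ℂ q μ)
    {W₁ W₂ : Set (Lp ℂ q μ)} (hW₁ : IsOpen W₁) (hW₂ : IsOpen W₂) (hu₁ : u₁ ∈ W₁) (hu₂ : u₂ ∈ W₂) :
    ∃ U : Set G, ν U < ∞ ∧
      (ν U).toReal⁻¹ • (∫ g in U, (DomMulAct.mk g • u₁) ∂ν) ∈ W₁ ∧
      (ν U).toReal⁻¹ • (∫ g in U, (DomMulAct.mk g • u₂) ∂ν) ∈ W₂ := by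
  obtain ⟨ε₁, hε₁, hb₁⟩ := Metric.isOpen_iff.mp hW₁ u₁ hu₁
  obtain ⟨ε₂, hε₂, hb₂⟩ := Metric.isOpen_iff.mp hW₂ u₂ hu₂
  have hV : ∀ (u : Lp ℂ q μ) (ε : ℝ), 0 < ε →
      ∀ᶠ g in 𝓝 (1 : G), ‖DomMulAct.mk g • u - u‖ ≤ ε := by
    intro u ε hε
    have h1 : Continuous (fun g : G => ‖DomMulAct.mk g • u - u‖) :=
      ((continuous_mk_smul u).sub continuous_const).norm
    have h2 := h1.tendsto (1 : G)
    have h3 : ‖DomMulAct.mk (1 : G) • u - u‖ = 0 := by
      rw [DomMulAct.mk_one, one_smul, sub_self, norm_zero]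
    rw [h3] at h2
    exact h2.eventually (ge_mem_nhds hε)
  obtain ⟨U, hU1, hU2, hUc⟩ := local_compact_nhds ((hV u₁ (ε₁ / 2) (by linarith)).and
    (hV u₂ (ε₂ / 2) (by linarith)))
  have hUf : ν U < ∞ := hUc.measure_lt_top
  have hU0 : 0 < ν U := Measure.measure_pos_of_mem_nhds ν hU1
  have hUr : 0 < (ν U).toReal := ENNReal.toReal_pos hU0.ne' hUf.ne
  have key : ∀ (u : Lp ℂ q μ) (ε : ℝ), 0 < ε → (∀ g ∈ U, ‖DomMulAct.mk g • u - u‖ ≤ ε / 2) →
      (ν U).toReal⁻¹ • (∫ g in U, (DomMulAct.mk g • u) ∂ν) ∈ Metric.ball u ε := by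
    intro u ε hε hg
    rw [mem_ball_iff_norm]
    have : IsFiniteMeasure (ν.restrict U) := ⟨by simpa using hUf⟩
    have e1 : (ν U).toReal⁻¹ • (∫ g in U, (DomMulAct.mk g • u) ∂ν) - u =
        (ν U).toReal⁻¹ • (∫ g in U, (DomMulAct.mk g • u - u) ∂ν) := by
      rw [integral_sub (integrableOn_mk_smul u hUf) (integrable_const u), smul_sub,
        integral_const, Measure.real, Measure.restrict_apply_univ, smul_smul,
        inv_mul_cancel₀ hUr.ne', one_smul]
    rw [e1, norm_smul, norm_inv, Real.norm_of_nonneg hUr.le]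
    have e2 := norm_setIntegral_le_of_norm_le_const hUf hg
    calc (ν U).toReal⁻¹ * ‖∫ g in U, (DomMulAct.mk g • u - u) ∂ν‖
        ≤ (ν U).toReal⁻¹ * (ε / 2 * (ν U).toReal) := by
          gcongr
          exact e2
      _ = ε / 2 := by field_simp
      _ < ε := by linarith
  exact ⟨U, hUf, hb₁ (key u₁ ε₁ hε₁ fun g hg => (hU2 hg).1),
    hb₂ (key u₂ ε₂ hε₂ fun g hg => (hU2 hg).2)⟩

/-- Main existence statement for intertwiners. -/
theorem exists_intertwiner [LocallyCompactSpace G] [ν.IsOpenPosMeasure]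
    (hc : c ≠ ∞) (hK : ∀ x : X, ν.map (fun g => g • x) = c • μ)
    {p q : ℝ≥0∞} [hp : Fact (1 ≤ p)] [hq : Fact (1 ≤ q)] (hpq : p ≤ q) (hq' : q ≠ ∞)
    (T₁ : Lp ℂ q μ →L[ℂ] Lp ℂ q μ) (T₂ : Lp ℂ p μ →L[ℂ] Lp ℂ p μ)
    (hT₁ : ∀ (g : G) (f : Lp ℂ q μ), T₁ (DomMulAct.mk g • f) = DomMulAct.mk g • T₁ f)
    (hD : Dense {f : Lp ℂ p μ | ∃ f' : Lp ℂ q μ, (f' : X → ℂ) =ᵐ[μ] f ∧
      (T₁ f' : X → ℂ) =ᵐ[μ] T₂ f})
    (W₁ W₂ : Set (Lp ℂ q μ)) (hW₁ : IsOpen W₁) (hW₂ : IsOpen W₂)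
    (hn₁ : W₁.Nonempty) (hn₂ : W₂.Nonempty) :
    ∃ S : Lp ℂ p μ →L[ℂ] Lp ℂ q μ, (∀ f, T₁ (S f) = S (T₂ f)) ∧
      (S ⁻¹' W₁).Nonempty ∧ (S ⁻¹' W₂).Nonempty := by
  have : Fact (q ≠ ∞) := ⟨hq'⟩
  have hp' : p ≠ ∞ := ne_top_of_le_ne_top hq' hpq
  have hd := dense_inter (μ := μ) p q hp' hq'
  obtain ⟨u₁, hu₁, v₁, hv₁⟩ := hd.inter_open_nonempty W₁ hW₁ hn₁
  obtain ⟨u₂, hu₂, v₂, hv₂⟩ := hd.inter_open_nonempty W₂ hW₂ hn₂
  obtain ⟨U, hUf, h1, h2⟩ := exists_good_set (ν := ν) u₁ u₂ hW₁ hW₂ hu₁ hu₂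
  have key : ∀ (u : Lp ℂ q μ) (v : Lp ℂ p μ), (u : X → ℂ) =ᵐ[μ] v →
      avgCLM hc hK p q hpq hq' hUf v = ∫ g in U, (DomMulAct.mk g • u) ∂ν := by
    intro u v huv
    apply Lp.ext
    refine (avgCLM_ae hc hK p q hpq hq' hUf v).trans ?_
    rw [← avg_congr hK U huv]
    exact (bochner_ae_eq_avg hc hK u hUf).symm
  refine ⟨((ν U).toReal⁻¹ : ℂ) • avgCLM hc hK p q hpq hq' hUf, ?_, ⟨v₁, ?_⟩, ⟨v₂, ?_⟩⟩
  · intro f
    rw [smul_apply, smul_apply, map_smul,
      avg_intertwine hc hK hpq hq' hUf T₁ T₂ hT₁ hD f]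
  · rw [Set.mem_preimage, smul_apply, key u₁ v₁ hv₁]
    convert h1 using 1
    rw [← Complex.ofReal_inv]
    exact Complex.coe_smul _ _
  · rw [Set.mem_preimage, smul_apply, key u₂ v₂ hv₂]
    convert h2 using 1
    rw [← Complex.ofReal_inv]
    exact Complex.coe_smul _ _

end bochner_part


section quotient_part

variable {G : Type*} [Group G] [TopologicalSpace G] [IsTopologicalGroup G]
  [LocallyCompactSpace G] [SecondCountableTopology G] [T2Space G] [MeasurableSpace G] [BorelSpace G]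

theorem compact_preimage (K : Subgroup G) (hK : IsCompact (K : Set G)) (x : G ⧸ K)
    (C : Set (G ⧸ K)) (hC : IsCompact C) : IsCompact ((fun g : G => g • x) ⁻¹' C) := by
  have hclosed : IsClosed (K : Set G) := hK.isClosed
  obtain ⟨h, rfl⟩ := QuotientGroup.mk_surjective x
  have hproper : IsProperMap (QuotientGroup.mk : G → G ⧸ K) := by
    rw [isProperMap_iff_isClosedMap_and_compact_fibers]
    refine ⟨QuotientGroup.continuous_mk, QuotientGroup.isClosedMap_coe hK, ?_⟩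
    intro y
    obtain ⟨g, rfl⟩ := QuotientGroup.mk_surjective y
    have : (QuotientGroup.mk : G → G ⧸ K) ⁻¹' {QuotientGroup.mk g} = (fun k => g * k) '' (K : Set G) := by
      ext a
      simp only [Set.mem_preimage, Set.mem_singleton_iff, Set.mem_image, SetLike.mem_coe]
      rw [eq_comm, QuotientGroup.eq]
      constructor
      · intro ha
        exact ⟨g⁻¹ * a, ha, by simp⟩
      · rintro ⟨k, hk, rfl⟩
        simpa using hk
    rw [this]
    exact hK.image (by fun_prop)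
  have h1 := hproper.isCompact_preimage hC
  have h2 : ((fun g : G => g • (QuotientGroup.mk h : G ⧸ K)) ⁻¹' C) =
      (fun a => a * h⁻¹) '' ((QuotientGroup.mk : G → G ⧸ K) ⁻¹' C) := by
    ext g
    simp only [Set.mem_preimage, Set.mem_image]
    constructor
    · intro hg
      exact ⟨g * h, hg, by simp⟩
    · rintro ⟨a, ha, rfl⟩
      have : (a * h⁻¹) • (QuotientGroup.mk h : G ⧸ K) = QuotientGroup.mk a := by
        change (QuotientGroup.mk ((a * h⁻¹) * h) : G ⧸ K) = QuotientGroup.mk a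
        rw [inv_mul_cancel_right]
      rw [this]
      exact ha
  rw [h2]
  exact h1.image (by fun_prop)


/-- The intertwiners on `X = G / K`. -/
theorem exists_intertwiner_quotient (ν : Measure G) [ν.IsHaarMeasure] [ν.IsMulRightInvariant]
    (K : Subgroup G) (hK : IsCompact (K : Set G))
    [MeasurableSpace (G ⧸ K)] [BorelSpace (G ⧸ K)]
    (μ : Measure (G ⧸ K)) [SMulInvariantMeasure G (G ⧸ K) μ] [IsFiniteMeasureOnCompacts μ]
    {p₁ p₂ : ℝ≥0∞} [Fact (1 ≤ p₁)] [Fact (1 ≤ p₂)] (h21 : p₂ ≤ p₁) (h1 : p₁ ≠ ∞)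
    (T₁ : Lp ℂ p₁ μ →L[ℂ] Lp ℂ p₁ μ) (T₂ : Lp ℂ p₂ μ →L[ℂ] Lp ℂ p₂ μ)
    (hT₁ : ∀ (g : G) (f : Lp ℂ p₁ μ), T₁ (DomMulAct.mk g • f) = DomMulAct.mk g • T₁ f)
    (hD : Dense {f : Lp ℂ p₂ μ | ∃ f' : Lp ℂ p₁ μ, (f' : G ⧸ K → ℂ) =ᵐ[μ] f ∧
      (T₁ f' : G ⧸ K → ℂ) =ᵐ[μ] T₂ f})
    (W₁ W₂ : Set (Lp ℂ p₁ μ)) (hW₁ : IsOpen W₁) (hW₂ : IsOpen W₂)
    (hn₁ : W₁.Nonempty) (hn₂ : W₂.Nonempty) :
    ∃ S : Lp ℂ p₂ μ →L[ℂ] Lp ℂ p₁ μ, (∀ f, T₁ (S f) = S (T₂ f)) ∧
      (S ⁻¹' W₁).Nonempty ∧ (S ⁻¹' W₂).Nonempty := by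
  have hKc : IsClosed (K : Set G) := hK.isClosed
  by_cases hμ : μ = 0
  · -- trivial spaces
    subst hμ
    have hsub : ∀ f g : Lp ℂ p₁ (0 : Measure (G ⧸ K)), f = g := fun f g => by
      apply Lp.ext
      simp [Filter.EventuallyEq]
    obtain ⟨w₁, hw₁⟩ := hn₁
    obtain ⟨w₂, hw₂⟩ := hn₂
    have m₁ : ∀ f, f ∈ W₁ := fun f => by rw [hsub f w₁]; exact hw₁
    have m₂ : ∀ f, f ∈ W₂ := fun f => by rw [hsub f w₂]; exact hw₂
    exact ⟨0, fun f => hsub _ _, ⟨0, m₁ _⟩, ⟨0, m₂ _⟩⟩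
  · obtain ⟨c, hc, hKey⟩ := exists_orbit_const (X := G ⧸ K) ν μ hμ
      (compact_preimage K hK)
    exact exists_intertwiner hc hKey h21 h1 T₁ T₂ hT₁ hD W₁ W₂ hW₁ hW₂ hn₁ hn₂

end quotient_part

section final_part

variable {G : Type*} [Group G] [TopologicalSpace G] [IsTopologicalGroup G]
  [LocallyCompactSpace G] [PolishSpace G] [MeasurableSpace G] [BorelSpace G]

/-- On `G / K` the quotient `σ`-algebra is the Borel `σ`-algebra. -/
theorem borelSpace_quotient (K : Subgroup G) (hK : IsClosed (K : Set G)) : BorelSpace (G ⧸ K) :=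
  ⟨QuotientGroup.continuous_mk.map_eq_borel QuotientGroup.mk_surjective⟩

variable (ν : Measure G) [ν.IsHaarMeasure] [ν.IsMulRightInvariant]
    (K : Subgroup G) (hK : IsCompact (K : Set G))
    (μ : Measure (G ⧸ K)) [SMulInvariantMeasure G (G ⧸ K) μ] [IsFiniteMeasureOnCompacts μ]
    {p₁ p₂ : ℝ≥0∞} [Fact (1 ≤ p₁)] [Fact (1 ≤ p₂)] (h21 : p₂ ≤ p₁) (h1 : p₁ ≠ ∞)
    (T₁ : Lp ℂ p₁ μ →L[ℂ] Lp ℂ p₁ μ) (T₂ : Lp ℂ p₂ μ →L[ℂ] Lp ℂ p₂ μ)
    (hT₁ : ∀ (g : G) (f h : Lp ℂ p₁ μ), (∀ᵐ x ∂μ, h x = f (g • x)) →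
      ∀ᵐ x ∂μ, T₁ h x = T₁ f (g • x))
    (hD : Dense {f : Lp ℂ p₂ μ | ∃ f' : Lp ℂ p₁ μ,
      (∀ᵐ x ∂μ, f' x = f x) ∧ ∀ᵐ x ∂μ, T₁ f' x = T₂ f x})

include ν hK h21 h1 hT₁ hD

/-- Transfer of hypercyclicity from `L^{p₂}(G/K)` to `L^{p₁}(G/K)`, `p₂ ≤ p₁ < ∞`. -/
theorem hypercyclic_quotient (h : IsHypercyclic T₂) : IsHypercyclic T₁ := by
  have hKc : IsClosed (K : Set G) := hK.isClosed
  have : BorelSpace (G ⧸ K) := borelSpace_quotient K hKc
  have : Fact (p₁ ≠ ∞) := ⟨h1⟩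
  have hT₁' : ∀ (g : G) (f : Lp ℂ p₁ μ), T₁ (DomMulAct.mk g • f) = DomMulAct.mk g • T₁ f := by
    intro g f
    apply Lp.ext
    have e1 : (T₁ (DomMulAct.mk g • f) : G ⧸ K → ℂ) =ᵐ[μ] fun x => T₁ f (g • x) :=
      hT₁ g f _ (DomMulAct.smul_Lp_ae_eq (DomMulAct.mk g) f)
    exact e1.trans (DomMulAct.smul_Lp_ae_eq (DomMulAct.mk g) (T₁ f)).symm
  exact transfer_hypercyclic (fun W₁ W₂ a b c d =>
    exists_intertwiner_quotient ν K hK μ h21 h1 T₁ T₂ hT₁' hD W₁ W₂ a b c d) h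

/-- Transfer of the density of periodic points. -/
theorem periodic_quotient (h : Dense {f : Lp ℂ p₂ μ | ∃ N : ℕ, 1 ≤ N ∧ T₂^[N] f = f}) :
    Dense {f : Lp ℂ p₁ μ | ∃ N : ℕ, 1 ≤ N ∧ T₁^[N] f = f} := by
  have hKc : IsClosed (K : Set G) := hK.isClosed
  have : BorelSpace (G ⧸ K) := borelSpace_quotient K hKc
  have hT₁' : ∀ (g : G) (f : Lp ℂ p₁ μ), T₁ (DomMulAct.mk g • f) = DomMulAct.mk g • T₁ f := by
    intro g f
    apply Lp.ext
    have e1 : (T₁ (DomMulAct.mk g • f) : G ⧸ K → ℂ) =ᵐ[μ] fun x => T₁ f (g • x) :=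
      hT₁ g f _ (DomMulAct.smul_Lp_ae_eq (DomMulAct.mk g) f)
    exact e1.trans (DomMulAct.smul_Lp_ae_eq (DomMulAct.mk g) (T₁ f)).symm
  exact transfer_periodic (fun W₁ W₂ a b c d =>
    exists_intertwiner_quotient ν K hK μ h21 h1 T₁ T₂ hT₁' hD W₁ W₂ a b c d) h

end final_part



end Pool.Agent.H5.SymmChaos
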